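import Pool.Agent.LibDD61.Defs

set_option autoImplicit false

namespace Pool.Agent.LibDD61

open scoped Classical

/- DD4: cites no other row of the board. -/
/-- membership of an edge in a cut. -/
theorem dd4_mem_cut {W F : Type} [Fintype F] (h : F → Sym2 W) (S : Finset W) (f : F) (u v : W)
    (hf : h f = s(u, v)) :
    f ∈ cut h S ↔ (u ∈ S ∧ v ∉ S) ∨ (v ∈ S ∧ u ∉ S) := by
  unfold cut
  rw [Finset.mem_filter, hf]
  constructor
  · rintro ⟨-, ⟨a, ha, haS⟩, b, hb, hbS⟩
    rw [Sym2.mem_iff] at ha hb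
    rcases ha with rfl | rfl <;> rcases hb with rfl | rfl
    · exact absurd haS hbS
    · exact Or.inl ⟨haS, hbS⟩
    · exact Or.inr ⟨haS, hbS⟩
    · exact absurd haS hbS
  · rintro (⟨h1, h2⟩ | ⟨h1, h2⟩)
    · exact ⟨Finset.mem_univ _, ⟨u, Sym2.mem_mk_left _ _, h1⟩, v, Sym2.mem_mk_right _ _, h2⟩
    · exact ⟨Finset.mem_univ _, ⟨v, Sym2.mem_mk_right _ _, h1⟩, u, Sym2.mem_mk_left _ _, h2⟩

/-- [DD4] The vertex sets of the components of the spanning subgraph with edge set `Cᶜ`. -/
theorem blocks {W F : Type} [Fintype W] [Fintype F] (h : F → Sym2 W)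
    (hh : ∀ f, ¬ (h f).IsDiag) (C : Finset F) :
    ∃ P : Finset (Finset W), P.card = comps h Cᶜ ∧ (∀ S ∈ P, S.Nonempty) ∧
      (∀ S ∈ P, ∀ S' ∈ P, S ≠ S' → Disjoint S S') ∧ (∀ w, ∃ S ∈ P, w ∈ S) ∧
      (∀ S ∈ P, cut h S ⊆ C) ∧
      ∑ S ∈ P, (cut h S).card = 2 * (C.filter fun f => ∃ S ∈ P, f ∈ cut h S).card := by
  classical
  let G : SimpleGraph W := SimpleGraph.fromEdgeSet (h '' ((Cᶜ : Finset F) : Set F))
  let k : W → G.ConnectedComponent := G.connectedComponentMk
  let blk : G.ConnectedComponent → Finset W := fun c => Finset.univ.filter fun w => k w = c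
  have hmem : ∀ c w, w ∈ blk c ↔ k w = c := by
    intro c w
    simp only [blk, Finset.mem_filter, Finset.mem_univ, true_and]
  have hne : ∀ c, (blk c).Nonempty := by
    intro c
    induction c using SimpleGraph.ConnectedComponent.ind with
    | _ v => exact ⟨v, (hmem _ _).2 rfl⟩
  have hinj : Function.Injective blk := by
    intro c c' hcc
    obtain ⟨w, hw⟩ := hne c
    have h1 := (hmem _ _).1 hw
    rw [hcc] at hw
    exact h1.symm.trans ((hmem _ _).1 hw)
  have hcutC : ∀ f u v, h f = s(u, v) → f ∉ C → k u = k v := by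
    intro f u v hf hfC
    have huv : u ≠ v := by
      intro he
      apply hh f
      rw [hf, he]
      exact Sym2.mk_isDiag_iff.2 rfl
    apply SimpleGraph.ConnectedComponent.sound
    apply SimpleGraph.Adj.reachable
    rw [SimpleGraph.fromEdgeSet_adj]
    refine ⟨⟨f, ?_, hf⟩, huv⟩
    rw [Finset.mem_coe, Finset.mem_compl]
    exact hfC
  have hcut : ∀ c f u v, h f = s(u, v) →
      (f ∈ cut h (blk c) ↔ (k u = c ∧ k v ≠ c) ∨ (k v = c ∧ k u ≠ c)) := by
    intro c f u v hf
    rw [dd4_mem_cut h (blk c) f u v hf, hmem, hmem]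
  haveI : Fintype G.ConnectedComponent := Fintype.ofFinite _
  have hsub : ∀ S ∈ Finset.univ.image blk, cut h S ⊆ C := by
    intro S hS f hf
    rw [Finset.mem_image] at hS
    obtain ⟨c, -, rfl⟩ := hS
    by_contra hfC
    induction hfe : h f using Sym2.ind with
    | _ u v =>
      have h1 := hcutC f u v hfe hfC
      rcases (hcut c f u v hfe).1 hf with ⟨h2, h3⟩ | ⟨h2, h3⟩
      · exact h3 (h1 ▸ h2)
      · exact h3 (h1.symm ▸ h2)
  refine ⟨Finset.univ.image blk, ?_, ?_, ?_, ?_, hsub, ?_⟩
  · rw [Finset.card_image_of_injective _ hinj, Finset.card_univ, comps, Nat.card_eq_fintype_card]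
  · intro S hS
    rw [Finset.mem_image] at hS
    obtain ⟨c, -, rfl⟩ := hS
    exact hne c
  · intro S hS S' hS' hSS
    rw [Finset.mem_image] at hS hS'
    obtain ⟨c, -, rfl⟩ := hS
    obtain ⟨c', -, rfl⟩ := hS'
    rw [Finset.disjoint_left]
    intro w hw hw'
    apply hSS
    rw [← (hmem _ _).1 hw, ← (hmem _ _).1 hw']
  · intro w
    exact ⟨blk (k w), Finset.mem_image_of_mem _ (Finset.mem_univ _), (hmem _ _).2 rfl⟩
  · have h1 : ∀ S ∈ Finset.univ.image blk,
        (cut h S).card = (C.filter fun f => f ∈ cut h S).card := by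
      intro S hS
      congr 1
      ext f
      rw [Finset.mem_filter]
      exact ⟨fun hf => ⟨hsub S hS hf, hf⟩, fun hf => hf.2⟩
    rw [Finset.sum_congr rfl h1]
    simp only [Finset.card_filter]
    rw [Finset.sum_comm, Finset.mul_sum]
    apply Finset.sum_congr rfl
    intro f hfC
    rw [← Finset.card_filter]
    induction hfe : h f using Sym2.ind with
    | _ u v =>
      by_cases huv : k u = k v
      · have hno : ∀ c, f ∉ cut h (blk c) := by
          intro c hc
          rcases (hcut c f u v hfe).1 hc with ⟨h2, h3⟩ | ⟨h2, h3⟩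
          · exact h3 (huv ▸ h2)
          · exact h3 (huv.symm ▸ h2)
        have hneg : ¬ ∃ S ∈ Finset.univ.image blk, f ∈ cut h S := by
          rintro ⟨S, hS, hf⟩
          rw [Finset.mem_image] at hS
          obtain ⟨c, -, rfl⟩ := hS
          exact hno c hf
        have hemp : (Finset.univ.image blk).filter (fun S => f ∈ cut h S) = ∅ := by
          rw [Finset.filter_eq_empty_iff]
          intro S hS hf
          exact hneg ⟨S, hS, hf⟩
        rw [if_neg hneg, hemp, Finset.card_empty, mul_zero]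
      · have hset : (Finset.univ.image blk).filter (fun S => f ∈ cut h S) =
            {blk (k u), blk (k v)} := by
          ext S
          rw [Finset.mem_filter, Finset.mem_insert, Finset.mem_singleton, Finset.mem_image]
          constructor
          · rintro ⟨⟨c, -, rfl⟩, hf⟩
            rcases (hcut c f u v hfe).1 hf with ⟨h2, h3⟩ | ⟨h2, h3⟩
            · exact Or.inl (by rw [h2])
            · exact Or.inr (by rw [h2])
          · rintro (rfl | rfl)
            · refine ⟨⟨k u, Finset.mem_univ _, rfl⟩, ?_⟩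
              exact (hcut _ f u v hfe).2 (Or.inl ⟨rfl, fun h => huv h.symm⟩)
            · refine ⟨⟨k v, Finset.mem_univ _, rfl⟩, ?_⟩
              exact (hcut _ f u v hfe).2 (Or.inr ⟨rfl, huv⟩)
        have hpos : ∃ S ∈ Finset.univ.image blk, f ∈ cut h S := by
          refine ⟨blk (k u), Finset.mem_image_of_mem _ (Finset.mem_univ _), ?_⟩
          exact (hcut _ f u v hfe).2 (Or.inl ⟨rfl, fun h => huv h.symm⟩)
        rw [if_pos hpos, hset, Finset.card_pair (fun he => huv (hinj he)), mul_one]

end Pool.Agent.LibDD61
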