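import Pool.Agent.LibDD61.Defs

set_option autoImplicit false

namespace Pool.Agent.LibDD61

open scoped Classical

/-- [DD1] Coefficients of a polynomial in two variables are determined by its integer values. -/
theorem countEq {α β : Type} [Fintype α] [Fintype β] (a b : α → ℕ) (c d : β → ℕ)
    (h : ∀ x y : ℤ, ∑ s : α, (x - 1) ^ a s * (y - 1) ^ b s
      = ∑ t : β, (x - 1) ^ c t * (y - 1) ^ d t) (i j : ℕ) :
    (Finset.univ.filter fun s : α => a s = i ∧ b s = j).card
      = (Finset.univ.filter fun t : β => c t = i ∧ d t = j).card := by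
  have h1 : ∀ v : ℤ, ∑ s : α, (if a s = i then v ^ b s else 0)
      = ∑ t : β, (if c t = i then v ^ d t else 0) := by
    intro v
    have hp : (∑ s : α, Polynomial.C (v ^ b s) * (Polynomial.X : Polynomial ℤ) ^ a s)
        = ∑ t : β, Polynomial.C (v ^ d t) * (Polynomial.X : Polynomial ℤ) ^ c t := by
      apply Polynomial.funext
      intro u
      rw [Polynomial.eval_finsetSum, Polynomial.eval_finsetSum]
      have h2 := h (u + 1) (v + 1)
      simp only [add_sub_cancel_right] at h2
      simp only [Polynomial.eval_mul, Polynomial.eval_C, Polynomial.eval_pow, Polynomial.eval_X]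
      simp only [mul_comm (v ^ _)]
      exact h2
    have h3 := congrArg (fun p : Polynomial ℤ => p.coeff i) hp
    simp only [Polynomial.finsetSum_coeff, Polynomial.coeff_C_mul, Polynomial.coeff_X_pow,
      mul_ite, mul_one, mul_zero, eq_comm (a := i)] at h3
    exact h3
  have hp : (∑ s : α, (if a s = i then (Polynomial.X : Polynomial ℤ) ^ b s else 0))
      = ∑ t : β, (if c t = i then (Polynomial.X : Polynomial ℤ) ^ d t else 0) := by
    apply Polynomial.funext
    intro v
    rw [Polynomial.eval_finsetSum, Polynomial.eval_finsetSum]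
    have h2 := h1 v
    have e1 : ∀ s : α, Polynomial.eval v (if a s = i then (Polynomial.X : Polynomial ℤ) ^ b s else 0)
        = if a s = i then v ^ b s else 0 := by
      intro s
      split_ifs <;> simp
    have e2 : ∀ t : β, Polynomial.eval v (if c t = i then (Polynomial.X : Polynomial ℤ) ^ d t else 0)
        = if c t = i then v ^ d t else 0 := by
      intro t
      split_ifs <;> simp
    rw [Finset.sum_congr rfl fun s _ => e1 s, Finset.sum_congr rfl fun t _ => e2 t]
    exact h2
  have h3 := congrArg (fun p : Polynomial ℤ => p.coeff j) hp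
  simp only [Polynomial.finsetSum_coeff] at h3
  have e1 : ∀ s : α, Polynomial.coeff (if a s = i then (Polynomial.X : Polynomial ℤ) ^ b s else 0) j
      = if a s = i ∧ b s = j then 1 else 0 := by
    intro s
    by_cases h4 : a s = i
    · by_cases h5 : b s = j
      · simp [h4, h5]
      · simp [h4, h5, Polynomial.coeff_X_pow, Ne.symm h5]
    · simp [h4]
  have e2 : ∀ t : β, Polynomial.coeff (if c t = i then (Polynomial.X : Polynomial ℤ) ^ d t else 0) j
      = if c t = i ∧ d t = j then 1 else 0 := by
    intro t
    by_cases h4 : c t = i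
    · by_cases h5 : d t = j
      · simp [h4, h5]
      · simp [h4, h5, Polynomial.coeff_X_pow, Ne.symm h5]
    · simp [h4]
  rw [Finset.sum_congr rfl fun s _ => e1 s, Finset.sum_congr rfl fun t _ => e2 t] at h3
  rw [Finset.card_filter, Finset.card_filter]
  exact_mod_cast h3

end Pool.Agent.LibDD61
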