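import Mathlib

/-! Definitions for MP_ddaea2_co.NearCubicDuals (helper61). -/

set_option autoImplicit false

namespace Pool.Agent.LibDD61

open scoped Classical

/-- Number of connected components of the spanning subgraph with edge set `A`. -/
noncomputable def comps {V E : Type} (ends : E → Sym2 V) (A : Finset E) : ℕ :=
  Nat.card (SimpleGraph.fromEdgeSet (ends '' (A : Set E))).ConnectedComponent

/-- The Tutte polynomial of the multigraph `ends`, evaluated at the integers `x`, `y`. -/
noncomputable def tutte {V E : Type} [Fintype V] [Fintype E] (ends : E → Sym2 V) (x y : ℤ) : ℤ :=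
  ∑ A : Finset E,
    (x - 1) ^ (comps ends A - comps ends Finset.univ) *
      (y - 1) ^ ((A.card + comps ends A) - Fintype.card V)

/-- The edges with exactly one end in `S`. -/
noncomputable def cut {V E : Type} [Fintype E] (ends : E → Sym2 V) (S : Finset V) : Finset E :=
  Finset.univ.filter fun e => (∃ u ∈ ends e, u ∈ S) ∧ ∃ v ∈ ends e, v ∉ S

/-- Number of edges of `A` at the vertex `v`. -/
noncomputable def deg {V E : Type} (ends : E → Sym2 V) (A : Finset E) (v : V) : ℕ :=
  (A.filter fun e => v ∈ ends e).card

/-- Incidence vector of an edge over the field with two elements. -/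
noncomputable def inc {V E : Type} (ends : E → Sym2 V) (e : E) : V → ZMod 2 :=
  fun v => if v ∈ ends e then 1 else 0

/-- Rank over `ZMod 2` of a set of vectors. -/
noncomputable def rk {E X : Type} [AddCommGroup X] [Module (ZMod 2) X] (φ : E → X)
    (A : Finset E) : ℕ :=
  Module.finrank (ZMod 2) (Submodule.span (ZMod 2) (φ '' (A : Set E)))

/-- The edge set `A` has even degree everywhere. -/
def EvenSet {V E : Type} (ends : E → Sym2 V) (A : Finset E) : Prop :=
  ∀ v, Even (deg ends A v)

/-- Hypotheses on the graph `h`: no loops, at least three vertices, every edge cut has at least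
three edges, cuts with three edges are stars, at most one star does not have three edges. -/
structure NearCubic {W F : Type} [Fintype W] [Fintype F] (h : F → Sym2 W) : Prop where
  loopless : ∀ f, ¬ (h f).IsDiag
  card : 3 ≤ Fintype.card W
  three : ∀ S : Finset W, S ≠ ∅ → S ≠ Finset.univ → 3 ≤ (cut h S).card
  star : ∀ S : Finset W, (cut h S).card = 3 → S.card = 1 ∨ Sᶜ.card = 1
  big : ∀ u v : W, u ≠ v → (cut h {u}).card = 3 ∨ (cut h {v}).card = 3

end Pool.Agent.LibDD61
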