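import Pool.Agent.LibDD61.Blocks

set_option autoImplicit false

namespace Pool.Agent.LibDD61

open scoped Classical

variable {W F : Type} [Fintype W] [Fintype F] {h : F → Sym2 W}

-- cites DD4 (`blocks`)

private lemma dd5_mem_cut {V E : Type} [Fintype E] (ends : E → Sym2 V) (S : Finset V) (e : E) :
    e ∈ cut ends S ↔ (∃ u ∈ ends e, u ∈ S) ∧ ∃ v ∈ ends e, v ∉ S := by
  unfold cut
  rw [Finset.mem_filter]
  exact ⟨fun h => h.2, fun h => ⟨Finset.mem_univ e, h⟩⟩

private lemma dd5_ne_univ {P : Finset (Finset W)} (hne : ∀ S ∈ P, S.Nonempty)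
    (hdis : ∀ S ∈ P, ∀ S' ∈ P, S ≠ S' → Disjoint S S') (hP : 2 ≤ P.card) {S : Finset W}
    (hS : S ∈ P) : S ≠ Finset.univ := by
  intro hu
  obtain ⟨S', hS', hne'⟩ : ∃ S' ∈ P, S' ≠ S := by
    by_contra hcon
    push Not at hcon
    have h1 : P ⊆ {S} := fun T hT => Finset.mem_singleton.mpr (hcon T hT)
    have h2 := Finset.card_le_card h1
    rw [Finset.card_singleton] at h2
    omega
  have h3 := hdis S' hS' S hS hne'
  obtain ⟨x, hx⟩ := hne S' hS'
  exact Finset.disjoint_left.mp h3 hx (hu ▸ Finset.mem_univ x)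

private lemma dd5_three (hN : NearCubic h) {P : Finset (Finset W)}
    (hne : ∀ S ∈ P, S.Nonempty) (hdis : ∀ S ∈ P, ∀ S' ∈ P, S ≠ S' → Disjoint S S')
    (hP : 2 ≤ P.card) {S : Finset W} (hS : S ∈ P) : 3 ≤ (cut h S).card :=
  hN.three S (hne S hS).ne_empty (dd5_ne_univ hne hdis hP hS)

/-- [DD5a] -/
theorem NearCubic.comps_univ (hN : NearCubic h) : comps h Finset.univ = 1 := by
  obtain ⟨P, hcard, hne, hdis, hcov, hcut, -⟩ := blocks h hN.loopless ∅
  rw [Finset.compl_empty] at hcard
  have h1 : 1 ≤ P.card := by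
    have hW : 0 < Fintype.card W := by
      have := hN.card
      omega
    obtain ⟨w⟩ := Fintype.card_pos_iff.mp hW
    obtain ⟨S, hS, -⟩ := hcov w
    exact Finset.card_pos.mpr ⟨S, hS⟩
  rw [← hcard]
  by_contra hne1
  have h2 : 2 ≤ P.card := by omega
  obtain ⟨S, hS⟩ := Finset.card_pos.mp (show 0 < P.card by omega)
  have h3 := dd5_three hN hne hdis h2 hS
  have h4 := Finset.card_le_card (hcut S hS)
  rw [Finset.card_empty] at h4
  omega

/-- [DD5b] -/
theorem NearCubic.sparse (hN : NearCubic h) (C : Finset F) (hk : 2 ≤ comps h Cᶜ) :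
    3 * comps h Cᶜ ≤ 2 * C.card := by
  obtain ⟨P, hcard, hne, hdis, -, -, hsum⟩ := blocks h hN.loopless C
  rw [← hcard] at hk ⊢
  have h1 : P.card * 3 ≤ ∑ S ∈ P, (cut h S).card := by
    have h2 := Finset.card_nsmul_le_sum P (fun S => (cut h S).card) 3
      fun S hS => dd5_three hN hne hdis hk hS
    rwa [smul_eq_mul] at h2
  have h3 := Finset.card_filter_le C fun f => ∃ S ∈ P, f ∈ cut h S
  omega

/-- [DD5c] -/
theorem NearCubic.tight (hN : NearCubic h) (C : Finset F) (r : ℕ) (hr : 3 ≤ r)
    (hC : C.card + 3 = 3 * r) (hk : comps h Cᶜ + r = C.card + 1) :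
    C = Finset.univ ∧ ∀ u : W, (cut h {u}).card = 3 := by
  obtain ⟨P, hcard, hne, hdis, hcov, hcut, hsum⟩ := blocks h hN.loopless C
  rw [← hcard] at hk
  have hP4 : 4 ≤ P.card := by omega
  have hP2 : 2 ≤ P.card := by omega
  have h3 : ∀ S ∈ P, 3 ≤ (cut h S).card := fun S hS => dd5_three hN hne hdis hP2 hS
  have hle := Finset.card_filter_le C fun f => ∃ S ∈ P, f ∈ cut h S
  have hall : ∀ S ∈ P, (cut h S).card = 3 := by
    by_contra hcon
    push Not at hcon
    obtain ⟨S, hS, hS3⟩ := hcon
    have h4 : ∑ T ∈ P, 3 < ∑ T ∈ P, (cut h T).card :=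
      Finset.sum_lt_sum h3 ⟨S, hS, lt_of_le_of_ne (h3 S hS) (Ne.symm hS3)⟩
    rw [Finset.sum_const, smul_eq_mul] at h4
    omega
  have hone : ∀ S ∈ P, S.card = 1 := by
    intro S hS
    rcases hN.star S (hall S hS) with h4 | h4
    · exact h4
    · exfalso
      obtain ⟨x, hx⟩ := Finset.card_eq_one.mp h4
      have h5 : (P.erase S).card ≤ 1 := by
        rw [Finset.card_le_one]
        have h6 : ∀ T ∈ P.erase S, x ∈ T := by
          intro T hT
          rw [Finset.mem_erase] at hT
          obtain ⟨y, hy⟩ := hne T hT.2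
          have h7 : y ∉ S := fun hyS =>
            Finset.disjoint_left.mp (hdis T hT.2 S hS hT.1) hy hyS
          have h8 : y ∈ Sᶜ := Finset.mem_compl.mpr h7
          rw [hx, Finset.mem_singleton] at h8
          exact h8 ▸ hy
        intro T hT T' hT'
        by_contra hTT
        exact Finset.disjoint_left.mp (hdis T (Finset.mem_of_mem_erase hT) T'
          (Finset.mem_of_mem_erase hT') hTT) (h6 T hT) (h6 T' hT')
      rw [Finset.card_erase_of_mem hS] at h5
      omega
  have hsing : ∀ u : W, {u} ∈ P := by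
    intro u
    obtain ⟨S, hS, huS⟩ := hcov u
    obtain ⟨x, hx⟩ := Finset.card_eq_one.mp (hone S hS)
    rw [hx, Finset.mem_singleton] at huS
    rw [huS, ← hx]
    exact hS
  refine ⟨?_, fun u => hall _ (hsing u)⟩
  rw [Finset.eq_univ_iff_forall]
  intro f
  obtain ⟨a, b, hab⟩ : ∃ a b, h f = s(a, b) := by
    induction h f with
    | _ a b => exact ⟨a, b, rfl⟩
  have hne' : b ≠ a := by
    rintro rfl
    apply hN.loopless f
    rw [hab]
    exact Sym2.mk_isDiag_iff.mpr rfl
  apply hcut {a} (hsing a)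
  rw [dd5_mem_cut]
  refine ⟨⟨a, ?_, Finset.mem_singleton_self a⟩, b, ?_, ?_⟩
  · rw [hab]
    exact Sym2.mem_mk_left a b
  · rw [hab]
    exact Sym2.mem_mk_right a b
  · rw [Finset.mem_singleton]
    exact hne'

-- cites DD4 (blocks) and DD5b (NearCubic.sparse)
omit [Fintype W] in
theorem dd6_mem {f : F} {S : Finset W} :
    f ∈ cut h S ↔ (∃ u ∈ h f, u ∈ S) ∧ ∃ v ∈ h f, v ∉ S := by
  simp [cut]

theorem dd6_compl (S : Finset W) : cut h Sᶜ = cut h S := by
  ext f
  rw [dd6_mem, dd6_mem]
  constructor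
  · rintro ⟨⟨u, hu, hu'⟩, v, hv, hv'⟩
    exact ⟨⟨v, hv, by rwa [Finset.mem_compl, not_not] at hv'⟩, u, hu, Finset.mem_compl.1 hu'⟩
  · rintro ⟨⟨u, hu, hu'⟩, v, hv, hv'⟩
    exact ⟨⟨v, hv, Finset.mem_compl.2 hv'⟩, u, hu, by rwa [Finset.mem_compl, not_not]⟩

/-- A set with boundary inside `C` gives two components of the complement of `C`. -/
theorem dd6_two {S : Finset W} {C : Finset F} (h1 : S ≠ ∅) (h2 : S ≠ Finset.univ)
    (hC : cut h S ⊆ C) : 2 ≤ comps h Cᶜ := by
  obtain ⟨a, ha⟩ := Finset.nonempty_iff_ne_empty.2 h1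
  obtain ⟨b, hb⟩ : ∃ b, b ∉ S := by
    by_contra h3
    push Not at h3
    exact h2 (Finset.eq_univ_iff_forall.2 h3)
  unfold comps
  have h3 : Nontrivial (SimpleGraph.fromEdgeSet
      (h '' ((Cᶜ : Finset F) : Set F))).ConnectedComponent := by
    refine ⟨SimpleGraph.connectedComponentMk _ a, SimpleGraph.connectedComponentMk _ b,
      fun h4 => ?_⟩
    obtain ⟨p⟩ := SimpleGraph.ConnectedComponent.exact h4
    obtain ⟨d, -, hd1, hd2⟩ := p.exists_boundary_dart (S : Set W) ha hb
    have h5 := d.adj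
    rw [SimpleGraph.fromEdgeSet_adj] at h5
    obtain ⟨⟨f, hf, hfd⟩, -⟩ := h5
    have h6 : f ∈ cut h S := by
      rw [dd6_mem, hfd]
      exact ⟨⟨_, Sym2.mem_mk_left _ _, hd1⟩, _, Sym2.mem_mk_right _ _, hd2⟩
    rw [Finset.mem_coe, Finset.mem_compl] at hf
    exact hf (hC h6)
  exact Finite.one_lt_card

/-- Two vertices with the same star. -/
theorem dd6_inj (hN : NearCubic h) {u v : W} (huv : cut h {u} = cut h {v}) : u = v := by
  by_contra hne
  have h1 : ({u, v} : Finset W) ≠ ∅ := Finset.insert_ne_empty u {v}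
  have h2 : ({u, v} : Finset W) ≠ Finset.univ := by
    intro h3
    have h4 : ({u, v} : Finset W).card = Fintype.card W := by rw [h3, Finset.card_univ]
    have h5 := hN.card
    have h6 : ({u, v} : Finset W).card ≤ 2 := Finset.card_le_two
    omega
  have h3 := hN.three {u, v} h1 h2
  have h4 : cut h ({u, v} : Finset W) = ∅ := by
    rw [Finset.eq_empty_iff_forall_notMem]
    intro f hf
    rw [dd6_mem] at hf
    obtain ⟨⟨a, ha, ha'⟩, b, hb, hb'⟩ := hf
    rw [Finset.mem_insert, Finset.mem_singleton] at ha' hb'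
    push Not at hb'
    have h5 : h f = s(a, b) := by
      have hab : a ≠ b := by
        rintro rfl
        rcases ha' with h | h
        · exact hb'.1 h
        · exact hb'.2 h
      exact ((Sym2.mem_and_mem_iff hab).1 ⟨ha, hb⟩)
    have h6 : f ∈ cut h {a} := by
      rw [dd6_mem]
      refine ⟨⟨a, ha, Finset.mem_singleton_self a⟩, b, hb, ?_⟩
      rw [Finset.mem_singleton]
      rintro rfl
      rcases ha' with h | h
      · exact hb'.1 h
      · exact hb'.2 h
    have h7 : f ∈ cut h {u} ∧ f ∈ cut h {v} := by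
      rcases ha' with rfl | rfl
      · exact ⟨h6, by rw [← huv]; exact h6⟩
      · exact ⟨by rw [huv]; exact h6, h6⟩
    rw [dd6_mem, dd6_mem] at h7
    obtain ⟨⟨⟨x, hx, hx'⟩, -⟩, ⟨y, hy, hy'⟩, -⟩ := h7
    rw [Finset.mem_singleton] at hx' hy'
    subst hx' hy'
    rw [h5, Sym2.mem_iff] at hx hy
    rcases hx with rfl | rfl
    · rcases hy with rfl | rfl
      · exact hne rfl
      · exact hb'.2 rfl
    · exact hb'.1 rfl
  rw [h4, Finset.card_empty] at h3
  omega

/-- [DD6] -/
theorem NearCubic.count23 (hN : NearCubic h) :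
    (Finset.univ.filter fun C : Finset F => C.card = 3 ∧ comps h Cᶜ + 2 = 3 + 1).card
      = (Finset.univ.filter fun u : W => (cut h {u}).card = 3).card := by
  symm
  refine Finset.card_bij (fun u _ => cut h {u}) (fun u hu => ?_)
    (fun u _ v _ huv => dd6_inj hN huv) (fun C hC => ?_)
  · rw [Finset.mem_filter] at hu ⊢
    have h1 : ({u} : Finset W) ≠ Finset.univ := by
      intro h3
      have h4 : ({u} : Finset W).card = Fintype.card W := by rw [h3, Finset.card_univ]
      have h5 := hN.card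
      rw [Finset.card_singleton] at h4
      omega
    have h2 := dd6_two (h := h) (Finset.singleton_ne_empty u) h1
      (Finset.Subset.refl (cut h {u}))
    have h3 := hN.sparse (cut h {u}) h2
    rw [hu.2] at h3
    exact ⟨Finset.mem_univ _, hu.2, by omega⟩
  · rw [Finset.mem_filter] at hC
    obtain ⟨-, hC3, hC2⟩ := hC
    obtain ⟨P, hP1, hP2, hP3, hP4, hP5, -⟩ := blocks h hN.loopless C
    have h1 : P.card = 2 := by omega
    obtain ⟨S, S', hne, rfl⟩ := Finset.card_eq_two.1 h1
    have hS : S ∈ ({S, S'} : Finset (Finset W)) := Finset.mem_insert_self S {S'}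
    have hS' : S' ∈ ({S, S'} : Finset (Finset W)) :=
      Finset.mem_insert_of_mem (Finset.mem_singleton_self S')
    have h2 : S ≠ Finset.univ := by
      intro h3
      obtain ⟨x, hx⟩ := hP2 S' hS'
      exact Finset.disjoint_left.1 (hP3 S hS S' hS' hne) (by rw [h3]; exact Finset.mem_univ x) hx
    have h3 := hN.three S (Finset.nonempty_iff_ne_empty.1 (hP2 S hS)) h2
    have h4 : cut h S = C := Finset.eq_of_subset_of_card_le (hP5 S hS) (by omega)
    rcases hN.star S (by rw [h4]; exact hC3) with h5 | h5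
    · obtain ⟨u, rfl⟩ := Finset.card_eq_one.1 h5
      exact ⟨u, Finset.mem_filter.2 ⟨Finset.mem_univ u, by rw [h4]; exact hC3⟩, h4⟩
    · obtain ⟨u, hu⟩ := Finset.card_eq_one.1 h5
      have h6 : cut h {u} = C := by rw [← hu, dd6_compl, h4]
      exact ⟨u, Finset.mem_filter.2 ⟨Finset.mem_univ u, by rw [h6]; exact hC3⟩, h6⟩

-- cites DD4 (blocks) and DD5b (NearCubic.sparse)
omit [Fintype W] in
theorem dd7_mem {f : F} {S : Finset W} :
    f ∈ cut h S ↔ (∃ u ∈ h f, u ∈ S) ∧ ∃ v ∈ h f, v ∉ S := by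
  simp [cut]

theorem dd7_star (hN : NearCubic h) (f : F) (u : W) : f ∈ cut h {u} ↔ u ∈ h f := by
  rw [dd7_mem]
  constructor
  · rintro ⟨⟨x, hx, hxu⟩, -⟩
    rw [Finset.mem_singleton] at hxu
    exact hxu ▸ hx
  · intro hu
    obtain ⟨v, hv⟩ := Sym2.mem_iff_exists.mp hu
    have hne : v ≠ u := by
      rintro rfl
      apply hN.loopless f
      rw [hv]
      exact Sym2.mk_isDiag_iff.mpr rfl
    refine ⟨⟨u, hu, Finset.mem_singleton_self u⟩, v, ?_, ?_⟩
    · rw [hv]
      exact Sym2.mem_mk_right u v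
    · rw [Finset.mem_singleton]
      exact hne

omit [Fintype W] in
theorem dd7_ne {S : Finset W} {C : Finset F} (hC : cut h S ⊆ C) {a b : W} (ha : a ∈ S)
    (hb : b ∉ S) :
    (SimpleGraph.fromEdgeSet (h '' ((Cᶜ : Finset F) : Set F))).connectedComponentMk a ≠
      (SimpleGraph.fromEdgeSet (h '' ((Cᶜ : Finset F) : Set F))).connectedComponentMk b := by
  intro h4
  obtain ⟨p⟩ := SimpleGraph.ConnectedComponent.exact h4
  obtain ⟨d, -, hd1, hd2⟩ := p.exists_boundary_dart (S : Set W) ha hb
  have h5 := d.adj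
  rw [SimpleGraph.fromEdgeSet_adj] at h5
  obtain ⟨⟨f, hf, hfd⟩, -⟩ := h5
  have h6 : f ∈ cut h S := by
    rw [dd7_mem, hfd]
    exact ⟨⟨_, Sym2.mem_mk_left _ _, hd1⟩, _, Sym2.mem_mk_right _ _, hd2⟩
  rw [Finset.mem_coe, Finset.mem_compl] at hf
  exact hf (hC h6)

theorem dd7_three {C : Finset F} {a b c : W} (hab : a ≠ b) (hac : a ≠ c) (hbc : b ≠ c)
    (ha : cut h {a} ⊆ C) (hb : cut h {b} ⊆ C) : 3 ≤ comps h Cᶜ := by
  unfold comps
  have h1 := dd7_ne ha (Finset.mem_singleton_self a) (b := b)
    (fun hm => hab (Finset.mem_singleton.1 hm).symm)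
  have h2 := dd7_ne ha (Finset.mem_singleton_self a) (b := c)
    (fun hm => hac (Finset.mem_singleton.1 hm).symm)
  have h3 := dd7_ne hb (Finset.mem_singleton_self b) (b := c)
    (fun hm => hbc (Finset.mem_singleton.1 hm).symm)
  generalize SimpleGraph.fromEdgeSet (h '' ((Cᶜ : Finset F) : Set F)) = G at *
  have h4 : ({G.connectedComponentMk a, G.connectedComponentMk b, G.connectedComponentMk c} :
      Finset G.ConnectedComponent).card = 3 := by
    rw [Finset.card_insert_of_notMem, Finset.card_pair h3]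
    rw [Finset.mem_insert, Finset.mem_singleton]
    rintro (h5 | h5)
    · exact h1 h5
    · exact h2 h5
  have : Fintype G.ConnectedComponent := Fintype.ofFinite _
  rw [Nat.card_eq_fintype_card, ← h4]
  exact Finset.card_le_univ _

/-- the edges which have an end in common with `f` -/
noncomputable def dd7_C (h : F → Sym2 W) (f : F) : Finset F :=
  Finset.univ.filter fun e => ∃ u ∈ h f, u ∈ h e

theorem dd7_C_eq (hN : NearCubic h) {f : F} {u v : W} (hf : h f = s(u, v)) :
    dd7_C h f = cut h {u} ∪ cut h {v} := by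
  ext e
  rw [Finset.mem_union, dd7_star hN, dd7_star hN]
  unfold dd7_C
  rw [Finset.mem_filter, hf]
  constructor
  · rintro ⟨-, x, hx, hxe⟩
    rcases Sym2.mem_iff.1 hx with rfl | rfl
    · exact Or.inl hxe
    · exact Or.inr hxe
  · rintro (hx | hx)
    · exact ⟨Finset.mem_univ e, u, Sym2.mem_mk_left u v, hx⟩
    · exact ⟨Finset.mem_univ e, v, Sym2.mem_mk_right u v, hx⟩

omit [Fintype W] [Fintype F] in
theorem dd7_ends (f : F) : ∃ a b, h f = s(a, b) := by
  induction h f with
  | _ a b => exact ⟨a, b, rfl⟩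

theorem dd7_ends_ne (hN : NearCubic h) {f : F} {u v : W} (hf : h f = s(u, v)) : u ≠ v := by
  rintro rfl
  apply hN.loopless f
  rw [hf]
  exact Sym2.mk_isDiag_iff.mpr rfl

theorem dd7_pair_ne_univ (hN : NearCubic h) (u v : W) : ({u, v} : Finset W) ≠ Finset.univ := by
  intro h3
  have h4 : ({u, v} : Finset W).card = Fintype.card W := by rw [h3, Finset.card_univ]
  have h5 := hN.card
  have h6 : ({u, v} : Finset W).card ≤ 2 := Finset.card_le_two
  omega

/-- only one edge between two cubic vertices -/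
theorem dd7_inter (hN : NearCubic h) {u v : W} (huv : u ≠ v)
    (hu : (cut h {u}).card = 3) (hv : (cut h {v}).card = 3) :
    (cut h {u} ∩ cut h {v}).card ≤ 1 := by
  have h1 : 3 ≤ (cut h {u, v}).card :=
    hN.three _ (Finset.insert_ne_empty _ _) (dd7_pair_ne_univ hN u v)
  have h2 : cut h {u, v} ⊆ (cut h {u} ∪ cut h {v}) \ (cut h {u} ∩ cut h {v}) := by
    intro e he
    obtain ⟨⟨a, ha, ha'⟩, b, hb, hb'⟩ := dd7_mem.1 he
    rw [Finset.mem_sdiff, Finset.mem_union, Finset.mem_inter, dd7_star hN, dd7_star hN]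
    rw [Finset.mem_insert, Finset.mem_singleton] at ha' hb'
    refine ⟨?_, fun h3 => ?_⟩
    · rcases ha' with rfl | rfl
      · exact Or.inl ha
      · exact Or.inr ha
    · rw [(Sym2.mem_and_mem_iff huv).1 h3] at hb
      exact hb' (Sym2.mem_iff.1 hb)
  have h3 := Finset.card_le_card h2
  have h4 : cut h {u} ∩ cut h {v} ⊆ cut h {u} ∪ cut h {v} :=
    Finset.inter_subset_left.trans Finset.subset_union_left
  rw [Finset.card_sdiff_of_subset h4] at h3
  have h5 := Finset.card_union_add_card_inter (cut h {u}) (cut h {v})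
  omega

theorem dd7_card (hN : NearCubic h) {f : F} {u v : W} (hf : h f = s(u, v))
    (hu : (cut h {u}).card = 3) (hv : (cut h {v}).card = 3) : (dd7_C h f).card = 5 := by
  have h1 := dd7_inter hN (dd7_ends_ne hN hf) hu hv
  have h2 : f ∈ cut h {u} ∩ cut h {v} := by
    rw [Finset.mem_inter, dd7_star hN, dd7_star hN, hf]
    exact ⟨Sym2.mem_mk_left u v, Sym2.mem_mk_right u v⟩
  have h3 := Finset.card_pos.2 ⟨f, h2⟩
  have h5 := Finset.card_union_add_card_inter (cut h {u}) (cut h {v})
  rw [dd7_C_eq hN hf]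
  omega

theorem dd7_comps (hN : NearCubic h) {f : F} {u v : W} (hf : h f = s(u, v))
    (hu : (cut h {u}).card = 3) (hv : (cut h {v}).card = 3) : comps h (dd7_C h f)ᶜ = 3 := by
  obtain ⟨c, hc⟩ : ∃ c, c ∉ ({u, v} : Finset W) := by
    by_contra h3
    push Not at h3
    exact dd7_pair_ne_univ hN u v (Finset.eq_univ_iff_forall.2 h3)
  rw [Finset.mem_insert, Finset.mem_singleton] at hc
  push Not at hc
  have h1 : 3 ≤ comps h (dd7_C h f)ᶜ := by
    refine dd7_three (dd7_ends_ne hN hf) hc.1.symm hc.2.symm ?_ ?_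
    · rw [dd7_C_eq hN hf]
      exact Finset.subset_union_left
    · rw [dd7_C_eq hN hf]
      exact Finset.subset_union_right
  have h2 := hN.sparse (dd7_C h f) (by omega)
  rw [dd7_card hN hf hu hv] at h2
  omega

theorem dd7_inj (hN : NearCubic h) {f f' : F} {u v w : W} (hf : h f = s(u, v))
    (hu : (cut h {u}).card = 3) (hv : (cut h {v}).card = 3) (hw : (cut h {w}).card = 3)
    (hwf : w ∈ h f') (hwu : w ≠ u) (hwv : w ≠ v) (he : dd7_C h f = dd7_C h f') : False := by
  have huv := dd7_ends_ne hN hf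
  have hsub : cut h {w} ⊆ dd7_C h f := by
    intro e he'
    rw [dd7_star hN] at he'
    rw [he]
    unfold dd7_C
    exact Finset.mem_filter.2 ⟨Finset.mem_univ e, w, hwf, he'⟩
  have hfw : f ∉ cut h {w} := by
    rw [dd7_star hN, hf, Sym2.mem_iff]
    rintro (h1 | h1)
    · exact hwu h1
    · exact hwv h1
  have hff : f ∈ dd7_C h f := by
    unfold dd7_C
    refine Finset.mem_filter.2 ⟨Finset.mem_univ f, u, ?_, ?_⟩ <;>
    · rw [hf]
      exact Sym2.mem_mk_left u v
  -- the other edges
  have hD : ((dd7_C h f).erase f \ cut h {w}).card = 1 := by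
    have h1 : cut h {w} ⊆ (dd7_C h f).erase f := by
      intro e he'
      rw [Finset.mem_erase]
      exact ⟨fun h2 => hfw (h2 ▸ he'), hsub he'⟩
    rw [Finset.card_sdiff_of_subset h1, Finset.card_erase_of_mem hff, dd7_card hN hf hu hv, hw]
  have hcut : cut h {u, v, w} ⊆ (dd7_C h f).erase f \ cut h {w} := by
    intro e he'
    obtain ⟨⟨a, ha, ha'⟩, b, hb, hb'⟩ := dd7_mem.1 he'
    rw [Finset.mem_insert, Finset.mem_insert, Finset.mem_singleton] at ha' hb'
    push Not at hb'
    have hab : a ≠ b := by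
      rintro rfl
      rcases ha' with h1 | h1 | h1
      · exact hb'.1 h1
      · exact hb'.2.1 h1
      · exact hb'.2.2 h1
    have hends : h e = s(a, b) := (Sym2.mem_and_mem_iff hab).1 ⟨ha, hb⟩
    have hcase : a = u ∨ a = v := by
      rcases ha' with h1 | h1 | h1
      · exact Or.inl h1
      · exact Or.inr h1
      · exfalso
        have h2 : e ∈ cut h {w} := by
          rw [dd7_star hN, ← h1]
          exact ha
        have h3 := hsub h2
        rw [dd7_C_eq hN hf, Finset.mem_union, dd7_star hN, dd7_star hN, hends, Sym2.mem_iff,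
          Sym2.mem_iff] at h3
        rcases h3 with (h4 | h4) | (h4 | h4)
        · exact hwu (h1 ▸ h4.symm)
        · exact hb'.1 h4.symm
        · exact hwv (h1 ▸ h4.symm)
        · exact hb'.2.1 h4.symm
    rw [Finset.mem_sdiff, Finset.mem_erase]
    refine ⟨⟨fun h1 => ?_, ?_⟩, ?_⟩
    · rw [h1, hf] at hb
      rcases Sym2.mem_iff.1 hb with h2 | h2
      · exact hb'.1 h2
      · exact hb'.2.1 h2
    · rw [dd7_C_eq hN hf, Finset.mem_union, dd7_star hN, dd7_star hN]
      rcases hcase with rfl | rfl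
      · exact Or.inl ha
      · exact Or.inr ha
    · rw [dd7_star hN, hends, Sym2.mem_iff]
      rintro (h1 | h1)
      · rcases hcase with h2 | h2
        · exact hwu (h1.trans h2)
        · exact hwv (h1.trans h2)
      · exact hb'.2.2 h1.symm
  by_cases huniv : ({u, v, w} : Finset W) = Finset.univ
  · obtain ⟨e, he'⟩ := Finset.card_eq_one.1 hD
    have h1 : e ∈ (dd7_C h f).erase f \ cut h {w} := by
      rw [he']
      exact Finset.mem_singleton_self e
    rw [Finset.mem_sdiff, Finset.mem_erase] at h1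
    obtain ⟨⟨h2, h3⟩, h4⟩ := h1
    obtain ⟨a, b, hab⟩ := dd7_ends (h := h) e
    have hne := dd7_ends_ne hN hab
    have hall : ∀ x : W, x = u ∨ x = v ∨ x = w := by
      intro x
      have h5 := Finset.mem_univ x
      rw [← huniv, Finset.mem_insert, Finset.mem_insert, Finset.mem_singleton] at h5
      exact h5
    rw [dd7_star hN, hab, Sym2.mem_iff] at h4
    push Not at h4
    -- `e` would be a second edge between `u` and `v`
    have h5 : e ∈ cut h {u} ∩ cut h {v} := by
      rw [Finset.mem_inter, dd7_star hN, dd7_star hN, hab, Sym2.mem_iff, Sym2.mem_iff]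
      rcases hall a with ha | ha | ha
      · rcases hall b with hb | hb | hb
        · exact absurd (ha.trans hb.symm) hne
        · exact ⟨Or.inl ha.symm, Or.inr hb.symm⟩
        · exact absurd hb.symm h4.2
      · rcases hall b with hb | hb | hb
        · exact ⟨Or.inr hb.symm, Or.inl ha.symm⟩
        · exact absurd (ha.trans hb.symm) hne
        · exact absurd hb.symm h4.2
      · exact absurd ha.symm h4.1
    have h6 : f ∈ cut h {u} ∩ cut h {v} := by
      rw [Finset.mem_inter, dd7_star hN, dd7_star hN, hf]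
      exact ⟨Sym2.mem_mk_left u v, Sym2.mem_mk_right u v⟩
    exact h2 (Finset.card_le_one.1 (dd7_inter hN huv hu hv) e h5 f h6)
  · have h1 := hN.three {u, v, w} (Finset.insert_ne_empty _ _) huniv
    have h2 := Finset.card_le_card hcut
    omega

theorem dd7_single {S : Finset W} (hN : NearCubic h) (h3 : (cut h S).card = 3) {a b : W}
    (ha : a ∉ S) (hb : b ∉ S) (hab : a ≠ b) : ∃ u, S = {u} := by
  rcases hN.star S h3 with h4 | h4
  · exact Finset.card_eq_one.1 h4
  · exfalso
    obtain ⟨x, hx⟩ := Finset.card_eq_one.1 h4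
    have h5 : a ∈ Sᶜ := Finset.mem_compl.2 ha
    have h6 : b ∈ Sᶜ := Finset.mem_compl.2 hb
    rw [hx, Finset.mem_singleton] at h5 h6
    exact hab (h5.trans h6.symm)

/-- the main step for surjectivity -/
theorem dd7_surj (hN : NearCubic h) {C : Finset F} (hC : C.card = 5) {S T U : Finset W}
    (hS : S.Nonempty) (hT : T.Nonempty) (hU : U.Nonempty) (hST : Disjoint S T)
    (hSU : Disjoint S U) (hTU : Disjoint T U) (hcov : ∀ w, w ∈ S ∨ w ∈ T ∨ w ∈ U)
    (hSC : cut h S ⊆ C) (hTC : cut h T ⊆ C)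
    (hall : ∀ f ∈ C, f ∈ cut h S ∨ f ∈ cut h T ∨ f ∈ cut h U)
    (h3S : (cut h S).card = 3) (h3T : (cut h T).card = 3) :
    ∃ f : F, (∀ u ∈ h f, (cut h {u}).card = 3) ∧ dd7_C h f = C := by
  obtain ⟨a, ha⟩ := hS
  obtain ⟨b, hb⟩ := hT
  obtain ⟨c, hc⟩ := hU
  have haT : a ∉ T := Finset.disjoint_left.1 hST ha
  have haU : a ∉ U := Finset.disjoint_left.1 hSU ha
  have hbS : b ∉ S := Finset.disjoint_right.1 hST hb
  have hbU : b ∉ U := Finset.disjoint_left.1 hTU hb
  have hcS : c ∉ S := Finset.disjoint_right.1 hSU hc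
  have hcT : c ∉ T := Finset.disjoint_right.1 hTU hc
  have hab : a ≠ b := fun h1 => haT (h1 ▸ hb)
  have hac : a ≠ c := fun h1 => haU (h1 ▸ hc)
  have hbc : b ≠ c := fun h1 => hbU (h1 ▸ hc)
  obtain ⟨u, rfl⟩ := dd7_single hN h3S hbS hcS hbc
  obtain ⟨v, rfl⟩ := dd7_single hN h3T haT hcT hac
  have huv : u ≠ v := by
    rintro rfl
    rw [Finset.mem_singleton] at ha hb
    exact hab (ha.trans hb.symm)
  have hCC : C = cut h {u} ∪ cut h {v} := by
    apply Finset.Subset.antisymm
    · intro e he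
      rw [Finset.mem_union]
      rcases hall e he with h1 | h1 | h1
      · exact Or.inl h1
      · exact Or.inr h1
      · obtain ⟨-, x, hx, hx'⟩ := dd7_mem.1 h1
        rcases hcov x with h2 | h2 | h2
        · rw [Finset.mem_singleton] at h2
          left
          rw [dd7_star hN, ← h2]
          exact hx
        · rw [Finset.mem_singleton] at h2
          right
          rw [dd7_star hN, ← h2]
          exact hx
        · exact absurd h2 hx'
    · exact Finset.union_subset hSC hTC
  have h5 := Finset.card_union_add_card_inter (cut h {u}) (cut h {v})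
  rw [← hCC, hC, h3S, h3T] at h5
  obtain ⟨f, hf⟩ := Finset.card_pos.1 (show 0 < (cut h {u} ∩ cut h {v}).card by omega)
  rw [Finset.mem_inter, dd7_star hN, dd7_star hN] at hf
  have hfe : h f = s(u, v) := (Sym2.mem_and_mem_iff huv).1 hf
  refine ⟨f, fun x hx => ?_, by rw [dd7_C_eq hN hfe, hCC]⟩
  rw [hfe] at hx
  rcases Sym2.mem_iff.1 hx with rfl | rfl
  · exact h3S
  · exact h3T

/-- [DD7] -/
theorem NearCubic.count35 (hN : NearCubic h) :
    (Finset.univ.filter fun C : Finset F => C.card = 5 ∧ comps h Cᶜ + 3 = 5 + 1).card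
      = (Finset.univ.filter fun f : F => ∀ u ∈ h f, (cut h {u}).card = 3).card := by
  symm
  refine Finset.card_bij (fun f _ => dd7_C h f) (fun f hf => ?_) (fun f hf f' hf' he => ?_)
    (fun C hC => ?_)
  · rw [Finset.mem_filter] at hf ⊢
    obtain ⟨u, v, huv⟩ := dd7_ends (h := h) f
    have hu : (cut h {u}).card = 3 := hf.2 u (by rw [huv]; exact Sym2.mem_mk_left u v)
    have hv : (cut h {v}).card = 3 := hf.2 v (by rw [huv]; exact Sym2.mem_mk_right u v)
    refine ⟨Finset.mem_univ _, dd7_card hN huv hu hv, ?_⟩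
    rw [dd7_comps hN huv hu hv]
  · rw [Finset.mem_filter] at hf hf'
    obtain ⟨u, v, huv⟩ := dd7_ends (h := h) f
    obtain ⟨x, y, hxy⟩ := dd7_ends (h := h) f'
    have hu : (cut h {u}).card = 3 := hf.2 u (by rw [huv]; exact Sym2.mem_mk_left u v)
    have hv : (cut h {v}).card = 3 := hf.2 v (by rw [huv]; exact Sym2.mem_mk_right u v)
    have hx : (cut h {x}).card = 3 := hf'.2 x (by rw [hxy]; exact Sym2.mem_mk_left x y)
    have hy : (cut h {y}).card = 3 := hf'.2 y (by rw [hxy]; exact Sym2.mem_mk_right x y)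
    have hxf : x ∈ h f' := by rw [hxy]; exact Sym2.mem_mk_left x y
    have hyf : y ∈ h f' := by rw [hxy]; exact Sym2.mem_mk_right x y
    have hx' : x = u ∨ x = v := by
      by_contra hcon
      push Not at hcon
      exact dd7_inj hN huv hu hv hx hxf hcon.1 hcon.2 he
    have hy' : y = u ∨ y = v := by
      by_contra hcon
      push Not at hcon
      exact dd7_inj hN huv hu hv hy hyf hcon.1 hcon.2 he
    have hne := dd7_ends_ne hN hxy
    have h1 : f ∈ cut h {u} ∩ cut h {v} := by
      rw [Finset.mem_inter, dd7_star hN, dd7_star hN, huv]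
      exact ⟨Sym2.mem_mk_left u v, Sym2.mem_mk_right u v⟩
    have h2 : f' ∈ cut h {u} ∩ cut h {v} := by
      rw [Finset.mem_inter, dd7_star hN, dd7_star hN]
      rcases hx' with rfl | rfl
      · rcases hy' with rfl | rfl
        · exact absurd rfl hne
        · exact ⟨hxf, hyf⟩
      · rcases hy' with rfl | rfl
        · exact ⟨hyf, hxf⟩
        · exact absurd rfl hne
    exact Finset.card_le_one.1 (dd7_inter hN (dd7_ends_ne hN huv) hu hv) f h1 f' h2
  · rw [Finset.mem_filter] at hC
    obtain ⟨-, hC5, hC3⟩ := hC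
    obtain ⟨P, hP1, hP2, hP3, hP4, hP5, hP6⟩ := blocks h hN.loopless C
    have h1 : P.card = 3 := by omega
    obtain ⟨S, T, U, hST, hSU, hTU, rfl⟩ := Finset.card_eq_three.1 h1
    have hS : S ∈ ({S, T, U} : Finset (Finset W)) := by simp
    have hT : T ∈ ({S, T, U} : Finset (Finset W)) := by simp
    have hU : U ∈ ({S, T, U} : Finset (Finset W)) := by simp
    have dST := hP3 S hS T hT hST
    have dSU := hP3 S hS U hU hSU
    have dTU := hP3 T hT U hU hTU
    have hnu : ∀ A ∈ ({S, T, U} : Finset (Finset W)), 3 ≤ (cut h A).card := by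
      intro A hA
      refine hN.three A (hP2 A hA).ne_empty fun hcon => ?_
      obtain ⟨B, hB, hBA⟩ : ∃ B ∈ ({S, T, U} : Finset (Finset W)), B ≠ A := by
        by_cases h2 : S = A
        · exact ⟨T, hT, fun h3 => hST (h2.trans h3.symm)⟩
        · exact ⟨S, hS, h2⟩
      obtain ⟨x, hx⟩ := hP2 B hB
      exact Finset.disjoint_left.1 (hP3 B hB A hA hBA) hx (by rw [hcon]; exact Finset.mem_univ x)
    have gS := hnu S hS
    have gT := hnu T hT
    have gU := hnu U hU
    have hsum : ∑ A ∈ ({S, T, U} : Finset (Finset W)), (cut h A).card =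
        (cut h S).card + ((cut h T).card + (cut h U).card) := by
      rw [Finset.sum_insert, Finset.sum_pair hTU]
      rw [Finset.mem_insert, Finset.mem_singleton]
      rintro (h2 | h2)
      · exact hST h2
      · exact hSU h2
    rw [hsum] at hP6
    have hle := Finset.card_filter_le C fun f => ∃ S_1 ∈ ({S, T, U} : Finset (Finset W)),
      f ∈ cut h S_1
    have hfull : (C.filter fun f => ∃ S_1 ∈ ({S, T, U} : Finset (Finset W)), f ∈ cut h S_1) = C :=
      Finset.eq_of_subset_of_card_le (Finset.filter_subset _ _) (by omega)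
    have hall : ∀ f ∈ C, f ∈ cut h S ∨ f ∈ cut h T ∨ f ∈ cut h U := by
      intro f hf
      rw [← hfull, Finset.mem_filter] at hf
      obtain ⟨-, A, hA, hfA⟩ := hf
      rw [Finset.mem_insert, Finset.mem_insert, Finset.mem_singleton] at hA
      rcases hA with rfl | rfl | rfl
      · exact Or.inl hfA
      · exact Or.inr (Or.inl hfA)
      · exact Or.inr (Or.inr hfA)
    have hcov : ∀ w, w ∈ S ∨ w ∈ T ∨ w ∈ U := by
      intro w
      obtain ⟨A, hA, hwA⟩ := hP4 w
      rw [Finset.mem_insert, Finset.mem_insert, Finset.mem_singleton] at hA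
      rcases hA with rfl | rfl | rfl
      · exact Or.inl hwA
      · exact Or.inr (Or.inl hwA)
      · exact Or.inr (Or.inr hwA)
    have hgoal : ∃ f : F, (∀ u ∈ h f, (cut h {u}).card = 3) ∧ dd7_C h f = C := by
      by_cases c1 : (cut h S).card = 3
      · by_cases c2 : (cut h T).card = 3
        · exact dd7_surj hN hC5 (hP2 S hS) (hP2 T hT) (hP2 U hU) dST dSU dTU hcov (hP5 S hS)
            (hP5 T hT) hall c1 c2
        · have c3 : (cut h U).card = 3 := by omega
          refine dd7_surj hN hC5 (hP2 S hS) (hP2 U hU) (hP2 T hT) dSU dST dTU.symm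
            (fun w => ?_) (hP5 S hS) (hP5 U hU) (fun f hf => ?_) c1 c3
          · rcases hcov w with h2 | h2 | h2
            · exact Or.inl h2
            · exact Or.inr (Or.inr h2)
            · exact Or.inr (Or.inl h2)
          · rcases hall f hf with h2 | h2 | h2
            · exact Or.inl h2
            · exact Or.inr (Or.inr h2)
            · exact Or.inr (Or.inl h2)
      · have c2 : (cut h T).card = 3 := by omega
        have c3 : (cut h U).card = 3 := by omega
        refine dd7_surj hN hC5 (hP2 T hT) (hP2 U hU) (hP2 S hS) dTU dST.symm dSU.symm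
          (fun w => ?_) (hP5 T hT) (hP5 U hU) (fun f hf => ?_) c2 c3
        · rcases hcov w with h2 | h2 | h2
          · exact Or.inr (Or.inr h2)
          · exact Or.inl h2
          · exact Or.inr (Or.inl h2)
        · rcases hall f hf with h2 | h2 | h2
          · exact Or.inr (Or.inr h2)
          · exact Or.inl h2
          · exact Or.inr (Or.inl h2)
    obtain ⟨f, hf1, hf2⟩ := hgoal
    exact ⟨f, Finset.mem_filter.2 ⟨Finset.mem_univ f, hf1⟩, hf2⟩

private lemma dd8_mem_cut {V E : Type} [Fintype E] (ends : E → Sym2 V) (S : Finset V) (e : E) :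
    e ∈ cut ends S ↔ (∃ u ∈ ends e, u ∈ S) ∧ ∃ v ∈ ends e, v ∉ S := by
  unfold cut
  rw [Finset.mem_filter]
  exact ⟨fun h => h.2, fun h => ⟨Finset.mem_univ e, h⟩⟩

private lemma dd8_mem_star (hN : NearCubic h) (f : F) (u : W) : f ∈ cut h {u} ↔ u ∈ h f := by
  rw [dd8_mem_cut]
  constructor
  · rintro ⟨⟨x, hx, hxu⟩, -⟩
    rw [Finset.mem_singleton] at hxu
    exact hxu ▸ hx
  · intro hu
    obtain ⟨v, hv⟩ := Sym2.mem_iff_exists.mp hu
    have hne : v ≠ u := by
      rintro rfl
      apply hN.loopless f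
      rw [hv]
      exact Sym2.mk_isDiag_iff.mpr rfl
    refine ⟨⟨u, hu, Finset.mem_singleton_self u⟩, v, ?_, ?_⟩
    · rw [hv]
      exact Sym2.mem_mk_right u v
    · rw [Finset.mem_singleton]
      exact hne

private lemma dd8_edge (hN : NearCubic h) (f : F) :
    ((Finset.univ.filter fun u : W => (cut h {u}).card = 3).filter fun u => u ∈ h f).card =
      1 + if ∀ u ∈ h f, (cut h {u}).card = 3 then 1 else 0 := by
  obtain ⟨a, b, hab⟩ : ∃ a b, h f = s(a, b) := by
    induction h f with
    | _ a b => exact ⟨a, b, rfl⟩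
  have hne : a ≠ b := by
    rintro rfl
    apply hN.loopless f
    rw [hab]
    exact Sym2.mk_isDiag_iff.mpr rfl
  have hset : ((Finset.univ.filter fun u : W => (cut h {u}).card = 3).filter fun u => u ∈ h f) =
      ({a, b} : Finset W).filter fun u => (cut h {u}).card = 3 := by
    ext u
    simp only [Finset.mem_filter, Finset.mem_univ, true_and, Finset.mem_insert,
      Finset.mem_singleton, hab, Sym2.mem_iff]
    exact and_comm
  have hall : (∀ u ∈ h f, (cut h {u}).card = 3) ↔
      (cut h {a}).card = 3 ∧ (cut h {b}).card = 3 := by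
    rw [hab]
    constructor
    · intro H
      exact ⟨H a (Sym2.mem_mk_left a b), H b (Sym2.mem_mk_right a b)⟩
    · rintro ⟨h1, h2⟩ u hu
      rcases Sym2.mem_iff.mp hu with rfl | rfl
      · exact h1
      · exact h2
  rw [hset, Finset.filter_insert, Finset.filter_singleton]
  rcases hN.big a b hne with h1 | h1
  · rw [if_pos h1]
    by_cases h2 : (cut h {b}).card = 3
    · rw [if_pos h2, if_pos (hall.mpr ⟨h1, h2⟩),
        Finset.card_insert_of_notMem (fun hm => hne (Finset.mem_singleton.mp hm)),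
        Finset.card_singleton]
    · rw [if_neg h2, if_neg (fun hh => h2 (hall.mp hh).2),
        Finset.card_insert_of_notMem (Finset.notMem_empty a), Finset.card_empty]
  · rw [if_pos h1]
    by_cases h2 : (cut h {a}).card = 3
    · rw [if_pos h2, if_pos (hall.mpr ⟨h2, h1⟩),
        Finset.card_insert_of_notMem (fun hm => hne (Finset.mem_singleton.mp hm)),
        Finset.card_singleton]
    · rw [if_neg h2, if_neg (fun hh => h2 (hall.mp hh).1), Finset.card_singleton]

/-- [DD8] -/
theorem NearCubic.numbers (hN : NearCubic h) :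
    Fintype.card F + (Finset.univ.filter fun f : F => ∀ u ∈ h f, (cut h {u}).card = 3).card
      = 3 * (Finset.univ.filter fun u : W => (cut h {u}).card = 3).card ∧
    (Finset.univ.filter fun u : W => (cut h {u}).card = 3).card ≤ Fintype.card W ∧
    Fintype.card W ≤ (Finset.univ.filter fun u : W => (cut h {u}).card = 3).card + 1 := by
  refine ⟨?_, Finset.card_le_univ _, ?_⟩
  · have h1 : ∑ u ∈ Finset.univ.filter (fun u : W => (cut h {u}).card = 3), (cut h {u}).card =
        3 * (Finset.univ.filter fun u : W => (cut h {u}).card = 3).card := by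
      rw [Finset.sum_congr rfl fun u hu => (Finset.mem_filter.mp hu).2, Finset.sum_const,
        smul_eq_mul, Nat.mul_comm]
    have h2 : ∑ u ∈ Finset.univ.filter (fun u : W => (cut h {u}).card = 3), (cut h {u}).card =
        ∑ f : F, ((Finset.univ.filter fun u : W => (cut h {u}).card = 3).filter
          fun u => u ∈ h f).card := by
      have h3 : ∀ u : W, (cut h {u}).card = ∑ f : F, if u ∈ h f then 1 else 0 := by
        intro u
        rw [← Finset.card_filter]
        congr 1
        ext f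
        rw [dd8_mem_star hN, Finset.mem_filter]
        exact ⟨fun hu => ⟨Finset.mem_univ f, hu⟩, fun hu => hu.2⟩
      rw [Finset.sum_congr rfl fun u _ => h3 u, Finset.sum_comm]
      refine Finset.sum_congr rfl fun f _ => ?_
      rw [Finset.card_filter]
    rw [← h1, h2, Finset.sum_congr rfl fun f _ => dd8_edge hN f, Finset.sum_add_distrib,
      Finset.sum_const, Finset.card_univ, smul_eq_mul, mul_one, ← Finset.card_filter]
  · have h1 : (Finset.univ.filter fun u : W => ¬ (cut h {u}).card = 3).card ≤ 1 := by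
      rw [Finset.card_le_one]
      intro u hu v hv
      by_contra huv
      rcases hN.big u v huv with h2 | h2
      · exact (Finset.mem_filter.mp hu).2 h2
      · exact (Finset.mem_filter.mp hv).2 h2
    have h2 := Finset.card_filter_add_card_filter_not (s := (Finset.univ : Finset W))
      (fun u : W => (cut h {u}).card = 3)
    rw [Finset.card_univ] at h2
    omega

end Pool.Agent.LibDD61
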