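import Pool.Agent.LibDD61.Defs

set_option autoImplicit false

namespace Pool.Agent.LibDD61

open scoped Classical

variable {E X : Type} [Fintype E] [AddCommGroup X] [Module (ZMod 2) X]

-- DD9: cites no other rows
/-- [DD9] The number of relations inside `A`. -/
theorem relCount (φ : E → X) (A : Finset E) :
    rk φ A ≤ A.card ∧
    (A.powerset.filter fun B => ∑ e ∈ B, φ e = 0).card = 2 ^ (A.card - rk φ A) := by
  let L : (A → ZMod 2) →ₗ[ZMod 2] X := Fintype.linearCombination (ZMod 2) (fun e : A => φ e)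
  have hrange : LinearMap.range L = Submodule.span (ZMod 2) (φ '' (A : Set E)) := by
    rw [Fintype.range_linearCombination]
    congr 1
    ext x
    constructor
    · rintro ⟨e, rfl⟩
      exact ⟨e.1, e.2, rfl⟩
    · rintro ⟨e, he, rfl⟩
      exact ⟨⟨e, he⟩, rfl⟩
  have hrn := LinearMap.finrank_range_add_finrank_ker L
  have hrk : Module.finrank (ZMod 2) (LinearMap.range L) = rk φ A := by
    rw [hrange]; rfl
  rw [hrk, Module.finrank_fintype_fun_eq_card, Fintype.card_coe] at hrn
  refine ⟨by omega, ?_⟩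
  have hk : Module.finrank (ZMod 2) (LinearMap.ker L) = A.card - rk φ A := by omega
  have hcard : Nat.card (LinearMap.ker L) = 2 ^ (A.card - rk φ A) := by
    have h := Module.natCard_eq_pow_finrank (K := ZMod 2) (V := LinearMap.ker L)
    rw [h, hk]
    simp
  rw [← hcard]
  have hLval : ∀ c : A → ZMod 2, L c = ∑ e : A, c e • φ e := by
    intro c
    rfl
  have hb : ∀ z : ZMod 2, z = 0 ∨ z = 1 := by decide
  rw [Nat.card_eq_fintype_card, ← Finset.card_univ]
  have hval : ∀ B : Finset E, B ⊆ A →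
      L (fun e : A => if e.1 ∈ B then (1 : ZMod 2) else 0) = ∑ e ∈ B, φ e := by
    intro B hB
    rw [hLval]
    have h1 : ∀ e : A, (if e.1 ∈ B then (1 : ZMod 2) else 0) • φ e.1
        = (fun e : E => if e ∈ B then φ e else 0) e.1 := by
      intro e
      by_cases he : e.1 ∈ B
      · simp [he]
      · simp [he]
    rw [Finset.sum_congr rfl (fun e _ => h1 e), Finset.sum_coe_sort A
      (fun e : E => if e ∈ B then φ e else 0), ← Finset.sum_filter]
    congr 1
    ext e
    simp only [Finset.mem_filter]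
    exact ⟨fun h => h.2, fun h => ⟨hB h, h⟩⟩
  have hinv : ∀ c : A → ZMod 2, (fun e : A => if e.1 ∈
      ((Finset.univ.filter fun e : A => c e = 1).map (Function.Embedding.subtype _)) then
        (1 : ZMod 2) else 0) = c := by
    intro c
    funext e
    by_cases he : c e = 1
    · rw [if_pos, he]
      simp [he]
    · rw [if_neg]
      · rcases hb (c e) with h | h
        · exact h.symm
        · exact absurd h he
      · simp [he]
  refine Finset.card_bij'
    (fun B hB => (⟨fun e : A => if e.1 ∈ B then (1 : ZMod 2) else 0, by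
      rw [Finset.mem_filter, Finset.mem_powerset] at hB
      rw [LinearMap.mem_ker, hval B hB.1]
      exact hB.2⟩ : LinearMap.ker L))
    (fun c _ => (Finset.univ.filter fun e : A => c.1 e = 1).map (Function.Embedding.subtype _))
    ?_ ?_ ?_ ?_
  · intro B hB
    exact Finset.mem_univ _
  · intro c hc
    have hsub : (Finset.univ.filter fun e : A => c.1 e = 1).map (Function.Embedding.subtype _)
        ⊆ A := by
      intro e he
      rw [Finset.mem_map] at he
      obtain ⟨e', _, rfl⟩ := he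
      exact e'.2
    rw [Finset.mem_filter, Finset.mem_powerset]
    refine ⟨hsub, ?_⟩
    rw [← hval _ hsub, hinv]
    exact c.2
  · intro B hB
    rw [Finset.mem_filter, Finset.mem_powerset] at hB
    ext e
    simp only [Finset.mem_map, Finset.mem_filter, Finset.mem_univ, true_and,
      Function.Embedding.coe_subtype, Subtype.exists, exists_and_right, exists_eq_right]
    constructor
    · rintro ⟨he, h⟩
      by_contra hc
      rw [if_neg hc] at h
      exact absurd h (by decide)
    · intro h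
      exact ⟨hB.1 h, by rw [if_pos h]⟩
  · intro c hc
    apply Subtype.ext
    exact hinv c.1

/-- The elements lying in an odd number of members of the family. -/
noncomputable def odd (U : Finset (Finset E)) : Finset E :=
  Finset.univ.filter fun e => Odd (U.filter fun T => e ∈ T).card

/-- [DD10a] -/
theorem sum_odd (φ : E → X) (U : Finset (Finset E)) (hU : ∀ T ∈ U, ∑ e ∈ T, φ e = 0) :
    ∑ e ∈ odd U, φ e = 0 := by
  have h2 : ∀ (n : ℕ) (x : X), n • x = if Odd n then x else 0 := by
    intro n x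
    have hxx : x + x = 0 := by
      have : (2 : ZMod 2) • x = 0 := by
        have h : (2 : ZMod 2) = 0 := by decide
        rw [h, zero_smul]
      rw [← this, two_smul]
    split_ifs with h
    · obtain ⟨k, rfl⟩ := h
      rw [add_smul, mul_comm, mul_smul, two_smul, hxx, smul_zero, zero_add, one_smul]
    · rw [Nat.not_odd_iff_even] at h
      obtain ⟨k, rfl⟩ := h
      rw [← two_mul, mul_comm, mul_smul, two_smul, hxx, smul_zero]
  have e1 : ∑ T ∈ U, ∑ e ∈ T, φ e = ∑ e : E, (U.filter fun T => e ∈ T).card • φ e := by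
    have : ∀ T ∈ U, ∑ e ∈ T, φ e = ∑ e : E, if e ∈ T then φ e else 0 := by
      intro T _
      rw [Finset.sum_ite_mem, Finset.univ_inter]
    rw [Finset.sum_congr rfl this, Finset.sum_comm]
    apply Finset.sum_congr rfl
    intro e _
    rw [← Finset.sum_filter, Finset.sum_const]
  rw [Finset.sum_eq_zero hU] at e1
  rw [e1, odd, Finset.sum_filter]
  apply Finset.sum_congr rfl
  intro e _
  rw [h2]

/-- [DD10b] -/
theorem odd_symmDiff (U U' : Finset (Finset E)) :
    odd (symmDiff U U') = symmDiff (odd U) (odd U') := by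
  ext e
  rw [Finset.mem_symmDiff]
  unfold odd
  simp only [Finset.mem_filter, Finset.mem_univ, true_and]
  set a := (U.filter fun T => e ∈ T) with ha
  set b := (U'.filter fun T => e ∈ T) with hb
  have hab : ((symmDiff U U').filter fun T => e ∈ T) = symmDiff a b := by
    ext T
    simp only [ha, hb, Finset.mem_filter, Finset.mem_symmDiff]
    tauto
  rw [hab]
  have h1 : (symmDiff a b).card = (a \ b).card + (b \ a).card := by
    rw [symmDiff_def]
    apply Finset.card_union_of_disjoint
    rw [Finset.disjoint_left]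
    intro x hx hx'
    rw [Finset.mem_sdiff] at hx hx'
    exact hx.2 hx'.1
  have h3 : (a \ b).card + (a ∩ b).card = a.card := Finset.card_sdiff_add_card_inter a b
  have h4 : (b \ a).card + (b ∩ a).card = b.card := Finset.card_sdiff_add_card_inter b a
  rw [Finset.inter_comm b a] at h4
  rw [h1, ← h3, ← h4]
  simp only [Nat.odd_iff]
  omega

/-- The sets with three elements and rank two. -/
noncomputable def tri (φ : E → X) : Finset (Finset E) :=
  Finset.univ.filter fun A => A.card = 3 ∧ rk φ A = 2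

/-- [DD11] (cites DD9: relCount) -/
theorem dd11_dep (φ : E → X) {A : Finset E} (hA : A.Nonempty) (h0 : ∑ e ∈ A, φ e = 0) :
    rk φ A + 1 ≤ A.card := by
  obtain ⟨h1, h2⟩ := relCount φ A
  by_contra h3
  have h4 : A.card - rk φ A = 0 := by omega
  rw [h4, pow_zero, Finset.card_eq_one] at h2
  obtain ⟨B, hB⟩ := h2
  have h5 : (∅ : Finset E) ∈ A.powerset.filter fun B => ∑ e ∈ B, φ e = 0 := by
    rw [Finset.mem_filter, Finset.mem_powerset]
    exact ⟨Finset.empty_subset A, Finset.sum_empty⟩
  have h6 : A ∈ A.powerset.filter fun B => ∑ e ∈ B, φ e = 0 := by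
    rw [Finset.mem_filter, Finset.mem_powerset]
    exact ⟨Finset.Subset.refl A, h0⟩
  rw [hB, Finset.mem_singleton] at h5 h6
  rw [h6, ← h5] at hA
  exact Finset.not_nonempty_empty hA

theorem dd11_three (φ : E → X)
    (h1 : ∀ A : Finset E, rk φ A + 1 ≤ A.card → A.card + 3 ≤ 3 * rk φ A) {A : Finset E}
    (hA : A.Nonempty) (h0 : ∑ e ∈ A, φ e = 0) : 3 ≤ A.card := by
  have h2 := dd11_dep φ hA h0
  have h3 := h1 A h2
  omega

/-- [DD11] -/
theorem tri_iff (φ : E → X) (h1 : ∀ A : Finset E, rk φ A + 1 ≤ A.card → A.card + 3 ≤ 3 * rk φ A) :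
    (∀ A : Finset E, A.Nonempty → ∑ e ∈ A, φ e = 0 → 3 ≤ A.card) ∧
    ∀ A : Finset E, A ∈ tri φ ↔ A.card = 3 ∧ ∑ e ∈ A, φ e = 0 := by
  refine ⟨fun A hA h0 => dd11_three φ h1 hA h0, fun A => ?_⟩
  unfold tri
  rw [Finset.mem_filter]
  constructor
  · rintro ⟨-, hc, hr⟩
    refine ⟨hc, ?_⟩
    obtain ⟨-, h2⟩ := relCount φ A
    rw [hc, hr] at h2
    have h3 : 1 < (A.powerset.filter fun B => ∑ e ∈ B, φ e = 0).card := by
      rw [h2]
      norm_num
    obtain ⟨B, hB, hne⟩ := Finset.exists_mem_ne h3 ∅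
    rw [Finset.mem_filter, Finset.mem_powerset] at hB
    have h4 := dd11_three φ h1 (Finset.nonempty_iff_ne_empty.2 hne) hB.2
    have h5 : B = A := Finset.eq_of_subset_of_card_le hB.1 (by omega)
    rw [← h5]
    exact hB.2
  · rintro ⟨hc, h0⟩
    have hA : A.Nonempty := Finset.card_pos.1 (by omega)
    have h2 := dd11_dep φ hA h0
    have h3 := h1 A h2
    exact ⟨Finset.mem_univ A, hc, by omega⟩

theorem dd12_symm (φ : E → X) (A B : Finset E) (hA : ∑ e ∈ A, φ e = 0) (hB : ∑ e ∈ B, φ e = 0) :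
    ∑ e ∈ symmDiff A B, φ e = 0 := by
  have h := sum_odd φ (symmDiff {A} {B}) (by
    intro T hT
    rw [Finset.mem_symmDiff, Finset.mem_singleton, Finset.mem_singleton] at hT
    rcases hT with ⟨rfl, -⟩ | ⟨rfl, -⟩
    · exact hA
    · exact hB)
  have h1 : ∀ C : Finset E, odd {C} = C := by
    intro C
    ext e
    unfold odd
    rw [Finset.mem_filter, Finset.filter_singleton]
    by_cases he : e ∈ C
    · simp [he]
    · simp [he]
  rw [odd_symmDiff, h1, h1] at h
  exact h

omit [Fintype E] in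
theorem dd12_card_symm (A B : Finset E) :
    (symmDiff A B).card + 2 * (A ∩ B).card = A.card + B.card := by
  have h1 : (symmDiff A B).card = (A \ B).card + (B \ A).card := by
    rw [symmDiff_def]
    apply Finset.card_union_of_disjoint
    rw [Finset.disjoint_left]
    intro x hx hx'
    rw [Finset.mem_sdiff] at hx hx'
    exact hx.2 hx'.1
  have h3 : (A \ B).card + (A ∩ B).card = A.card := Finset.card_sdiff_add_card_inter A B
  have h4 : (B \ A).card + (B ∩ A).card = B.card := Finset.card_sdiff_add_card_inter B A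
  rw [Finset.inter_comm B A] at h4
  omega

theorem dd12_share (φ : E → X)
    (h1 : ∀ A : Finset E, rk φ A + 1 ≤ A.card → A.card + 3 ≤ 3 * rk φ A)
    (T T' : Finset E) (hT : T ∈ tri φ) (hT' : T' ∈ tri φ) (hne : T ≠ T') :
    (T ∩ T').card ≤ 1 := by
  obtain ⟨h3, h4⟩ := tri_iff φ h1
  obtain ⟨a1, a2⟩ := (h4 T).1 hT
  obtain ⟨b1, b2⟩ := (h4 T').1 hT'
  have hs := h3 (symmDiff T T') (Finset.nonempty_iff_ne_empty.2 (by
    intro h
    rw [← Finset.bot_eq_empty, symmDiff_eq_bot] at h
    exact hne h)) (dd12_symm φ T T' a2 b2)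
  have := dd12_card_symm T T'
  omega

theorem dd12_rel (φ : E → X)
    (h1 : ∀ A : Finset E, rk φ A + 1 ≤ A.card → A.card + 3 ≤ 3 * rk φ A)
    (T T' : Finset E) (hT : T ∈ tri φ) (hT' : T' ∈ tri φ) (hne : T ≠ T') (e : E) (he : e ∈ T)
    (he' : e ∈ T') :
    (T ∪ T').card = 5 ∧ rk φ (T ∪ T') = 3 ∧ (symmDiff T T').card = 4 ∧
    ((T ∪ T').powerset.filter fun B => ∑ e ∈ B, φ e = 0) = {∅, T, T', symmDiff T T'} := by
  obtain ⟨h3, h4⟩ := tri_iff φ h1
  obtain ⟨a1, a2⟩ := (h4 T).1 hT
  obtain ⟨b1, b2⟩ := (h4 T').1 hT'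
  have hsh := dd12_share φ h1 T T' hT hT' hne
  have hpos : 0 < (T ∩ T').card := Finset.card_pos.2 ⟨e, Finset.mem_inter.2 ⟨he, he'⟩⟩
  have hsy := dd12_card_symm T T'
  have hun := Finset.card_union_add_card_inter T T'
  have hc5 : (T ∪ T').card = 5 := by omega
  have hs4 : (symmDiff T T').card = 4 := by omega
  have hsub : ({∅, T, T', symmDiff T T'} : Finset (Finset E)) ⊆
      ((T ∪ T').powerset.filter fun B => ∑ e ∈ B, φ e = 0) := by
    intro B hB
    rw [Finset.mem_filter, Finset.mem_powerset]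
    simp only [Finset.mem_insert, Finset.mem_singleton] at hB
    rcases hB with rfl | rfl | rfl | rfl
    · exact ⟨Finset.empty_subset _, by simp⟩
    · exact ⟨Finset.subset_union_left, a2⟩
    · exact ⟨Finset.subset_union_right, b2⟩
    · refine ⟨?_, dd12_symm φ T T' a2 b2⟩
      intro x hx
      rw [Finset.mem_symmDiff] at hx
      rw [Finset.mem_union]
      rcases hx with hx | hx
      · exact Or.inl hx.1
      · exact Or.inr hx.1
  have hcard4 : ({∅, T, T', symmDiff T T'} : Finset (Finset E)).card = 4 := by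
    have n1 : (∅ : Finset E) ≠ T := by rintro rfl; simp at a1
    have n2 : (∅ : Finset E) ≠ T' := by rintro rfl; simp at b1
    have n3 : (∅ : Finset E) ≠ symmDiff T T' := by intro h; rw [← h] at hs4; simp at hs4
    have n4 : T ≠ symmDiff T T' := by intro h; rw [← h] at hs4; omega
    have n5 : T' ≠ symmDiff T T' := by intro h; rw [← h] at hs4; omega
    rw [Finset.card_insert_of_notMem, Finset.card_insert_of_notMem, Finset.card_insert_of_notMem,
      Finset.card_singleton]
    · simpa using n5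
    · simp only [Finset.mem_insert, Finset.mem_singleton, not_or]
      exact ⟨hne, n4⟩
    · simp only [Finset.mem_insert, Finset.mem_singleton, not_or]
      exact ⟨n1, n2, n3⟩
  have hr := relCount φ (T ∪ T')
  have hle := Finset.card_le_card hsub
  rw [hcard4, hr.2, hc5] at hle
  have hr1 := hr.1
  rw [hc5] at hr1
  have hrk : rk φ (T ∪ T') ≤ 3 := by
    by_contra hcon
    have : 5 - rk φ (T ∪ T') ≤ 1 := by omega
    have h2 : 2 ^ (5 - rk φ (T ∪ T')) ≤ 2 ^ 1 := Nat.pow_le_pow_right (by norm_num) this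
    omega
  have h8 := h1 (T ∪ T') (by omega)
  have hrk3 : rk φ (T ∪ T') = 3 := by omega
  refine ⟨hc5, hrk3, hs4, ?_⟩
  symm
  apply Finset.eq_of_subset_of_card_le hsub
  rw [hcard4, hr.2, hc5, hrk3]
  norm_num

theorem dd12_pair (φ : E → X)
    (h1 : ∀ A : Finset E, rk φ A + 1 ≤ A.card → A.card + 3 ≤ 3 * rk φ A)
    (A T T' : Finset E) (hA : A.card = 5) (hT : T ∈ tri φ) (hT' : T' ∈ tri φ) (hne : T ≠ T')
    (hTA : T ⊆ A) (hTA' : T' ⊆ A) : T ∪ T' = A ∧ ∃ e, e ∈ T ∧ e ∈ T' := by
  obtain ⟨h3, h4⟩ := tri_iff φ h1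
  obtain ⟨a1, a2⟩ := (h4 T).1 hT
  obtain ⟨b1, b2⟩ := (h4 T').1 hT'
  have hsh := dd12_share φ h1 T T' hT hT' hne
  have hun := Finset.card_union_add_card_inter T T'
  have hsub : T ∪ T' ⊆ A := Finset.union_subset hTA hTA'
  have hle := Finset.card_le_card hsub
  refine ⟨Finset.eq_of_subset_of_card_le hsub (by omega), ?_⟩
  have hpos : 0 < (T ∩ T').card := by omega
  obtain ⟨e, he⟩ := Finset.card_pos.1 hpos
  exact ⟨e, (Finset.mem_inter.1 he).1, (Finset.mem_inter.1 he).2⟩

theorem dd12_five (φ : E → X)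
    (h1 : ∀ A : Finset E, rk φ A + 1 ≤ A.card → A.card + 3 ≤ 3 * rk φ A)
    (A : Finset E) (hA : A.card = 5) (hr3 : rk φ A = 3) :
    ∃ T T', T ∈ tri φ ∧ T' ∈ tri φ ∧ T ≠ T' ∧ T ⊆ A ∧ T' ⊆ A := by
  obtain ⟨h3, h4⟩ := tri_iff φ h1
  have hr := (relCount φ A).2
  rw [hA, hr3] at hr
  set R := (A.powerset.filter fun B => ∑ e ∈ B, φ e = 0) with hR
  have h0 : (∅ : Finset E) ∈ R := by
    rw [hR, Finset.mem_filter]; simp
  have hR3 : (R.erase ∅).card = 3 := by
    rw [Finset.card_erase_of_mem h0, hr]; norm_num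
  obtain ⟨x, y, z, hxy, hxz, hyz, hxyz⟩ := Finset.card_eq_three.1 hR3
  have hmem : ∀ w ∈ R.erase ∅, w ⊆ A ∧ ∑ e ∈ w, φ e = 0 ∧ 3 ≤ w.card := by
    intro w hw
    rw [Finset.mem_erase, hR, Finset.mem_filter, Finset.mem_powerset] at hw
    exact ⟨hw.2.1, hw.2.2, h3 w (Finset.nonempty_iff_ne_empty.2 hw.1) hw.2.2⟩
  obtain ⟨x1, x2, x3⟩ := hmem x (by rw [hxyz]; simp)
  obtain ⟨y1, y2, y3⟩ := hmem y (by rw [hxyz]; simp)
  obtain ⟨z1, z2, z3⟩ := hmem z (by rw [hxyz]; simp)
  have hxne : x ≠ ∅ := by rintro rfl; simp at x3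
  have hyne : y ≠ ∅ := by rintro rfl; simp at y3
  have hs : symmDiff x y ∈ R.erase ∅ := by
    rw [Finset.mem_erase, hR, Finset.mem_filter, Finset.mem_powerset]
    refine ⟨?_, ?_, dd12_symm φ x y x2 y2⟩
    · intro h
      rw [← Finset.bot_eq_empty, symmDiff_eq_bot] at h
      exact hxy h
    · intro w hw
      rw [Finset.mem_symmDiff] at hw
      rcases hw with hw | hw
      · exact x1 hw.1
      · exact y1 hw.1
  have hz : symmDiff x y = z := by
    rw [hxyz] at hs
    simp only [Finset.mem_insert, Finset.mem_singleton] at hs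
    rcases hs with h | h | h
    · exfalso
      apply hyne
      have : symmDiff x (symmDiff x y) = symmDiff x x := by rw [h]
      rw [symmDiff_symmDiff_cancel_left, symmDiff_self] at this
      exact this
    · exfalso
      apply hxne
      have : symmDiff (symmDiff x y) y = symmDiff y y := by rw [h]
      rw [symmDiff_symmDiff_cancel_right, symmDiff_self] at this
      exact this
    · exact h
  have hc := dd12_card_symm x y
  rw [hz] at hc
  have hun := Finset.card_union_add_card_inter x y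
  have hle := Finset.card_le_card (Finset.union_subset x1 y1)
  rw [hA] at hle
  have hcases : (x.card = 3 ∧ y.card = 3) ∨ (x.card = 3 ∧ z.card = 3) ∨ (y.card = 3 ∧ z.card = 3) := by
    omega
  rcases hcases with ⟨c1, c2⟩ | ⟨c1, c2⟩ | ⟨c1, c2⟩
  · exact ⟨x, y, (h4 x).2 ⟨c1, x2⟩, (h4 y).2 ⟨c2, y2⟩, hxy, x1, y1⟩
  · exact ⟨x, z, (h4 x).2 ⟨c1, x2⟩, (h4 z).2 ⟨c2, z2⟩, hxz, x1, z1⟩
  · exact ⟨y, z, (h4 y).2 ⟨c1, y2⟩, (h4 z).2 ⟨c2, z2⟩, hyz, y1, z1⟩

/-- [DD12] -/
theorem pairs (φ : E → X) (h1 : ∀ A : Finset E, rk φ A + 1 ≤ A.card → A.card + 3 ≤ 3 * rk φ A) :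
    ∑ e : E, ((tri φ).filter fun T => e ∈ T).card.choose 2
      = (Finset.univ.filter fun A : Finset E => A.card = 5 ∧ rk φ A = 3).card := by
  obtain ⟨h3, h4⟩ := tri_iff φ h1
  have e1 : ∀ e : E, ((tri φ).filter fun T => e ∈ T).card.choose 2
      = (((tri φ).filter fun T => e ∈ T).powersetCard 2).card := fun e => by
    rw [Finset.card_powersetCard]
  rw [Finset.sum_congr rfl (fun e _ => e1 e), ← Finset.card_biUnion]
  · apply Finset.card_bij (fun P _ => P.biUnion id)
    · intro P hP
      rw [Finset.mem_biUnion] at hP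
      obtain ⟨e, -, hP⟩ := hP
      rw [Finset.mem_powersetCard] at hP
      obtain ⟨hP1, hP2⟩ := hP
      obtain ⟨T, T', hne, rfl⟩ := Finset.card_eq_two.1 hP2
      have m1 := Finset.mem_filter.1 (hP1 (show T ∈ {T, T'} by simp))
      have m2 := Finset.mem_filter.1 (hP1 (show T' ∈ {T, T'} by simp))
      obtain ⟨c1, c2, -, -⟩ := dd12_rel φ h1 T T' m1.1 m2.1 hne e m1.2 m2.2
      rw [Finset.mem_filter]
      have : ({T, T'} : Finset (Finset E)).biUnion id = T ∪ T' := by
        rw [Finset.biUnion_insert, Finset.singleton_biUnion]; rfl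
      rw [this]
      exact ⟨Finset.mem_univ _, c1, c2⟩
    · intro P hP Q hQ hPQ
      rw [Finset.mem_biUnion] at hP hQ
      obtain ⟨e, -, hP⟩ := hP
      obtain ⟨e', -, hQ⟩ := hQ
      rw [Finset.mem_powersetCard] at hP hQ
      obtain ⟨hP1, hP2⟩ := hP
      obtain ⟨hQ1, hQ2⟩ := hQ
      obtain ⟨T, T', hne, rfl⟩ := Finset.card_eq_two.1 hP2
      have m1 := Finset.mem_filter.1 (hP1 (show T ∈ {T, T'} by simp))
      have m2 := Finset.mem_filter.1 (hP1 (show T' ∈ {T, T'} by simp))
      obtain ⟨c1, c2, c3, c4⟩ := dd12_rel φ h1 T T' m1.1 m2.1 hne e m1.2 m2.2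
      have hu : ({T, T'} : Finset (Finset E)).biUnion id = T ∪ T' := by
        rw [Finset.biUnion_insert, Finset.singleton_biUnion]; rfl
      symm
      apply Finset.eq_of_subset_of_card_le _ (by rw [hP2, hQ2])
      intro S hS
      have m3 := Finset.mem_filter.1 (hQ1 hS)
      have h5 := (h4 S).1 m3.1
      have hSA : S ⊆ T ∪ T' := by
        rw [← hu, hPQ]; exact Finset.subset_biUnion_of_mem id hS
      have hSR : S ∈ ((T ∪ T').powerset.filter fun B => ∑ e ∈ B, φ e = 0) := by
        rw [Finset.mem_filter, Finset.mem_powerset]; exact ⟨hSA, h5.2⟩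
      rw [c4] at hSR
      simp only [Finset.mem_insert, Finset.mem_singleton] at hSR ⊢
      rcases hSR with h | h | h | h
      · exfalso
        have := h5.1
        rw [h] at this
        simp at this
      · exact Or.inl h
      · exact Or.inr h
      · exfalso
        have := h5.1
        rw [h, c3] at this
        norm_num at this
    · intro A hA
      rw [Finset.mem_filter] at hA
      obtain ⟨-, hA5, hA3⟩ := hA
      obtain ⟨T, T', hT, hT', hne, hTA, hTA'⟩ := dd12_five φ h1 A hA5 hA3
      obtain ⟨hu, e, he, he'⟩ := dd12_pair φ h1 A T T' hA5 hT hT' hne hTA hTA'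
      refine ⟨{T, T'}, ?_, ?_⟩
      · rw [Finset.mem_biUnion]
        refine ⟨e, Finset.mem_univ _, ?_⟩
        rw [Finset.mem_powersetCard]
        refine ⟨?_, Finset.card_pair hne⟩
        intro S hS
        simp only [Finset.mem_insert, Finset.mem_singleton] at hS
        rw [Finset.mem_filter]
        rcases hS with rfl | rfl
        · exact ⟨hT, he⟩
        · exact ⟨hT', he'⟩
      · show ({T, T'} : Finset (Finset E)).biUnion id = A
        rw [Finset.biUnion_insert, Finset.singleton_biUnion]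
        exact hu
  · intro e _ e' _ hee
    rw [Function.onFun, Finset.disjoint_left]
    intro P hP hQ
    rw [Finset.mem_powersetCard] at hP hQ
    obtain ⟨hP1, hP2⟩ := hP
    obtain ⟨hQ1, -⟩ := hQ
    obtain ⟨T, T', hne, rfl⟩ := Finset.card_eq_two.1 hP2
    have m1 := Finset.mem_filter.1 (hP1 (show T ∈ {T, T'} by simp))
    have m2 := Finset.mem_filter.1 (hP1 (show T' ∈ {T, T'} by simp))
    have m3 := Finset.mem_filter.1 (hQ1 (show T ∈ {T, T'} by simp))
    have m4 := Finset.mem_filter.1 (hQ1 (show T' ∈ {T, T'} by simp))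
    have hsh := dd12_share φ h1 T T' m1.1 m2.1 hne
    have hsub : ({e, e'} : Finset E) ⊆ T ∩ T' := by
      intro x hx
      simp only [Finset.mem_insert, Finset.mem_singleton] at hx
      rw [Finset.mem_inter]
      rcases hx with rfl | rfl
      · exact ⟨m1.2, m2.2⟩
      · exact ⟨m3.2, m4.2⟩
    have := Finset.card_le_card hsub
    rw [Finset.card_pair hee] at this
    omega

/-- [DD13] -/
theorem one_or_two (φ : E → X)
    (h1 : ∀ A : Finset E, rk φ A + 1 ≤ A.card → A.card + 3 ≤ 3 * rk φ A)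
    (h6 : Fintype.card E + (Finset.univ.filter fun A : Finset E => A.card = 5 ∧ rk φ A = 3).card
      = 3 * (tri φ).card) (e : E) :
    ((tri φ).filter fun T => e ∈ T).card = 1 ∨ ((tri φ).filter fun T => e ∈ T).card = 2 := by
  obtain ⟨h3, h4⟩ := tri_iff φ h1
  have hp := pairs φ h1
  have hcnt : ∑ e : E, ((tri φ).filter fun T => e ∈ T).card = 3 * (tri φ).card := by
    have h := Finset.sum_card_bipartiteAbove_eq_sum_card_bipartiteBelow
      (s := tri φ) (t := (Finset.univ : Finset E)) (fun T e => e ∈ T)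
    rw [Finset.sum_congr rfl (g := fun e => ((tri φ).filter fun T => e ∈ T).card)
      (fun e _ => by unfold Finset.bipartiteBelow; rfl)] at h
    rw [← h, Finset.sum_congr rfl (g := fun _ => 3)]
    · simp [mul_comm]
    · intro T hT
      rw [← ((h4 T).1 hT).1]
      unfold Finset.bipartiteAbove
      congr 1
      ext x
      simp
  have hkey : ∀ t : ℕ, t ≤ 1 + t.choose 2 ∧ (t = 1 + t.choose 2 → t = 1 ∨ t = 2) := by
    intro t
    rcases Nat.lt_or_ge t 3 with h | h
    · interval_cases t <;> simp [Nat.choose]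
    · have h2 : t.choose 2 = t * (t - 1) / 2 := Nat.choose_two_right t
      have h5 : t < 1 + t.choose 2 := by
        rw [h2]
        have : 2 * t ≤ t * (t - 1) := by
          obtain ⟨k, rfl⟩ : ∃ k, t = k + 3 := ⟨t - 3, by omega⟩
          have : k + 3 - 1 = k + 2 := by omega
          rw [this]
          nlinarith
        omega
      exact ⟨h5.le, fun h6 => by omega⟩
  have hsum : ∑ e : E, ((tri φ).filter fun T => e ∈ T).card
      = ∑ e : E, (1 + ((tri φ).filter fun T => e ∈ T).card.choose 2) := by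
    rw [hcnt, Finset.sum_add_distrib, hp, ← h6]
    simp
  have hall := (Finset.sum_eq_sum_iff_of_le (fun e _ => (hkey _).1)).1 hsum e (Finset.mem_univ e)
  exact (hkey _).2 hall

/-- [DD14] -/
theorem even_family (φ : E → X)
    (h1 : ∀ A : Finset E, rk φ A + 1 ≤ A.card → A.card + 3 ≤ 3 * rk φ A)
    (ht : ∀ e, ((tri φ).filter fun T => e ∈ T).card = 1 ∨ ((tri φ).filter fun T => e ∈ T).card = 2)
    (v : ℕ) (h4 : ∀ A : Finset E, 3 ≤ rk φ A → A.card + 3 = 3 * rk φ A →
      A = Finset.univ ∧ (tri φ).card = v)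
    (U : Finset (Finset E)) (hU : U ⊆ tri φ) (hne : U.Nonempty) (hodd : odd U = ∅) :
    U = tri φ ∧ (tri φ).card = v := by
  have hT3 := (tri_iff φ h1).2
  obtain ⟨D, hD, hmin⟩ := Finset.exists_min_image
    (U.powerset.filter fun D => D.Nonempty ∧ odd D = ∅) Finset.card
    ⟨U, by rw [Finset.mem_filter]; exact ⟨Finset.mem_powerset_self U, hne, hodd⟩⟩
  rw [Finset.mem_filter, Finset.mem_powerset] at hD
  obtain ⟨hDU, hDne, hDodd⟩ := hD
  have hDt : D ⊆ tri φ := hDU.trans hU
  -- minimality
  have hmin' : ∀ D' ⊆ D, odd D' = ∅ → D' ≠ D → D' = ∅ := by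
    intro D' hD' ho hn
    by_contra hne'
    have h := hmin D' (by
      rw [Finset.mem_filter, Finset.mem_powerset]
      exact ⟨hD'.trans hDU, Finset.nonempty_iff_ne_empty.2 hne', ho⟩)
    exact hn (Finset.eq_of_subset_of_card_le hD' h)
  set E0 : Finset E := D.biUnion id with hE0
  have hTE0 : ∀ T ∈ D, T ⊆ E0 := fun T hT => Finset.subset_biUnion_of_mem id hT
  have hle : ∀ e, (D.filter fun T => e ∈ T).card ≤ ((tri φ).filter fun T => e ∈ T).card :=
    fun e => Finset.card_le_card (Finset.filter_subset_filter _ hDt)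
  have heven : ∀ e, Even (D.filter fun T => e ∈ T).card := by
    intro e
    by_contra h
    rw [Nat.not_even_iff_odd] at h
    have : e ∈ odd D := by unfold odd; rw [Finset.mem_filter]; exact ⟨Finset.mem_univ _, h⟩
    rw [hDodd] at this
    simp at this
  have htwo : ∀ e ∈ E0, (D.filter fun T => e ∈ T).card = 2 := by
    intro e he
    rw [hE0, Finset.mem_biUnion] at he
    obtain ⟨T, hT, heT⟩ := he
    have hpos : 0 < (D.filter fun T => e ∈ T).card :=
      Finset.card_pos.2 ⟨T, by rw [Finset.mem_filter]; exact ⟨hT, heT⟩⟩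
    obtain ⟨k, hk⟩ := heven e
    have := hle e
    rcases ht e with h | h <;> omega
  have hcnt : 2 * E0.card = 3 * D.card := by
    have e1 : ∑ T ∈ D, T.card = ∑ e ∈ E0, (D.filter fun T => e ∈ T).card := by
      have h := Finset.sum_card_bipartiteAbove_eq_sum_card_bipartiteBelow
        (s := D) (t := E0) (fun T e => e ∈ T)
      rw [Finset.sum_congr rfl (g := fun e => (D.filter fun T => e ∈ T).card)
        (fun e _ => by unfold Finset.bipartiteBelow; rfl)] at h
      rw [← h]
      apply Finset.sum_congr rfl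
      intro T hT
      unfold Finset.bipartiteAbove
      congr 1
      ext e
      rw [Finset.mem_filter]
      exact ⟨fun he => ⟨hTE0 T hT he, he⟩, fun he => he.2⟩
    rw [Finset.sum_congr rfl (fun T hT => ((hT3 T).1 (hDt hT)).1),
      Finset.sum_congr rfl (fun e he => htwo e he)] at e1
    simp at e1
    omega
  obtain ⟨T0, hT0⟩ := hDne
  have hT0c : T0.card = 3 := ((hT3 T0).1 (hDt hT0)).1
  have hE3 : 3 ≤ E0.card := by
    rw [← hT0c]; exact Finset.card_le_card (hTE0 T0 hT0)
  have hE4 : E0.card ≠ 3 := by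
    intro h
    have hD2 : D.card = 2 := by omega
    have hall : ∀ T ∈ D, T = E0 := fun T hT =>
      Finset.eq_of_subset_of_card_le (hTE0 T hT) (by rw [h, ((hT3 T).1 (hDt hT)).1])
    have : D ⊆ {E0} := fun T hT => Finset.mem_singleton.2 (hall T hT)
    have := Finset.card_le_card this
    simp at this
    omega
  -- the relations
  have hr := relCount φ E0
  have hinj : Set.InjOn odd ((D.erase T0).powerset : Set (Finset (Finset E))) := by
    intro P hP Q hQ hPQ
    have hP' := Finset.mem_powerset.1 hP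
    have hQ' := Finset.mem_powerset.1 hQ
    have e1 : odd (symmDiff P Q) = ∅ := by
      rw [odd_symmDiff, hPQ, symmDiff_self]; rfl
    have e2 : symmDiff P Q ⊆ D.erase T0 := by
      intro T hT
      rw [Finset.mem_symmDiff] at hT
      rcases hT with hT | hT
      · exact hP' hT.1
      · exact hQ' hT.1
    have e3 := hmin' _ (e2.trans (Finset.erase_subset _ _)) e1 (by
      intro h
      have h' : T0 ∈ symmDiff P Q := by rw [h]; exact hT0
      have := e2 h'
      simp at this)
    rw [← Finset.bot_eq_empty, symmDiff_eq_bot] at e3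
    exact e3
  have hsub : (D.erase T0).powerset.image odd ⊆
      (E0.powerset.filter fun B => ∑ e ∈ B, φ e = 0) := by
    intro B hB
    rw [Finset.mem_image] at hB
    obtain ⟨P, hP, rfl⟩ := hB
    have hP' : P ⊆ D := (Finset.mem_powerset.1 hP).trans (Finset.erase_subset _ _)
    rw [Finset.mem_filter, Finset.mem_powerset]
    refine ⟨?_, sum_odd φ P fun T hT => ((hT3 T).1 (hDt (hP' hT))).2⟩
    intro e he
    unfold odd at he
    rw [Finset.mem_filter] at he
    have hpos : 0 < (P.filter fun T => e ∈ T).card := he.2.pos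
    rw [Finset.card_pos] at hpos
    obtain ⟨T, hT⟩ := hpos
    rw [Finset.mem_filter] at hT
    exact hTE0 T (hP' hT.1) hT.2
  have hcard := Finset.card_le_card hsub
  rw [Finset.card_image_of_injOn hinj, Finset.card_powerset, Finset.card_erase_of_mem hT0,
    hr.2] at hcard
  have hexp : D.card - 1 ≤ E0.card - rk φ E0 := (Nat.pow_le_pow_iff_right (by norm_num)).1 hcard
  have hr1 := hr.1
  have hdep := h1 E0 (by omega)
  obtain ⟨hu, hv⟩ := h4 E0 (by omega) (by omega)
  have hDtri : D = tri φ := by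
    apply Finset.Subset.antisymm hDt
    intro T hT
    have hTc : T.card = 3 := ((hT3 T).1 hT).1
    have hTn : T.Nonempty := by rw [← Finset.card_pos]; omega
    obtain ⟨e, he⟩ := hTn
    have he0 : e ∈ E0 := by rw [hu]; simp
    have h2 := htwo e he0
    have hs : (D.filter fun T => e ∈ T) = ((tri φ).filter fun T => e ∈ T) := by
      apply Finset.eq_of_subset_of_card_le (Finset.filter_subset_filter _ hDt)
      rw [h2]
      rcases ht e with h | h <;> omega
    have hTm : T ∈ (tri φ).filter fun T => e ∈ T := by rw [Finset.mem_filter]; exact ⟨hT, he⟩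
    rw [← hs, Finset.mem_filter] at hTm
    exact hTm.1
  exact ⟨Finset.Subset.antisymm hU (hDtri ▸ hDU), hv⟩

theorem dd15_inj (φ : E → X) (v : ℕ)
    (h1 : ∀ A : Finset E, rk φ A + 1 ≤ A.card → A.card + 3 ≤ 3 * rk φ A)
    (ht : ∀ e, ((tri φ).filter fun T => e ∈ T).card = 1 ∨ ((tri φ).filter fun T => e ∈ T).card = 2)
    (h4 : ∀ A : Finset E, 3 ≤ rk φ A → A.card + 3 = 3 * rk φ A →
      A = Finset.univ ∧ (tri φ).card = v)
    (h7 : (tri φ).card ≤ v) (h8 : v ≤ (tri φ).card + 1) (h9 : 3 ≤ v) :
    ∃ M : Finset (Finset E), M ⊆ tri φ ∧ M.card = v - 1 ∧ ∀ D, D ⊆ M → odd D = ∅ → D = ∅ := by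
  rcases Nat.lt_or_ge (tri φ).card v with hlt | hge
  · refine ⟨tri φ, subset_rfl, by omega, fun D hD ho => ?_⟩
    by_contra hne
    have := (even_family φ h1 ht v h4 D hD (Finset.nonempty_iff_ne_empty.2 hne) ho).2
    omega
  · have hv : (tri φ).card = v := le_antisymm h7 hge
    have hn : (tri φ).Nonempty := by
      rw [← Finset.card_pos]; omega
    obtain ⟨T0, hT0⟩ := hn
    refine ⟨(tri φ).erase T0, Finset.erase_subset _ _, by rw [Finset.card_erase_of_mem hT0, hv],
      fun D hD ho => ?_⟩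
    by_contra hne
    have := (even_family φ h1 ht v h4 D (hD.trans (Finset.erase_subset _ _))
      (Finset.nonempty_iff_ne_empty.2 hne) ho).1
    have h2 : T0 ∈ D := by rw [this]; exact hT0
    have h3 := hD h2
    simp at h3

theorem dd15_surj (φ : E → X) (v : ℕ)
    (h1 : ∀ A : Finset E, rk φ A + 1 ≤ A.card → A.card + 3 ≤ 3 * rk φ A)
    (ht : ∀ e, ((tri φ).filter fun T => e ∈ T).card = 1 ∨ ((tri φ).filter fun T => e ∈ T).card = 2)
    (h4 : ∀ A : Finset E, 3 ≤ rk φ A → A.card + 3 = 3 * rk φ A →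
      A = Finset.univ ∧ (tri φ).card = v)
    (h5 : rk φ Finset.univ + v = Fintype.card E + 1)
    (h7 : (tri φ).card ≤ v) (h8 : v ≤ (tri φ).card + 1) (h9 : 3 ≤ v)
    (A : Finset E) (hA : ∑ e ∈ A, φ e = 0) : ∃ U, U ⊆ tri φ ∧ odd U = A := by
  obtain ⟨M, hM, hMc, hinj⟩ := dd15_inj φ v h1 ht h4 h7 h8 h9
  have hr := (relCount φ (Finset.univ : Finset E)).2
  have hr1 := (relCount φ (Finset.univ : Finset E)).1
  have hcard : (Finset.univ : Finset E).card = Fintype.card E := Finset.card_univ
  have hinj' : Set.InjOn odd (M.powerset : Set (Finset (Finset E))) := by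
    intro D hD D' hD' hDD
    have e1 : odd (symmDiff D D') = ∅ := by
      rw [odd_symmDiff, hDD, symmDiff_self]; rfl
    have e2 : symmDiff D D' ⊆ M := by
      intro T hT
      rw [Finset.mem_symmDiff] at hT
      rcases hT with hT | hT
      · exact Finset.mem_powerset.1 hD hT.1
      · exact Finset.mem_powerset.1 hD' hT.1
    have e3 := hinj _ e2 e1
    rw [← Finset.bot_eq_empty, symmDiff_eq_bot] at e3
    exact e3
  have hsub : M.powerset.image odd ⊆
      ((Finset.univ : Finset E).powerset.filter fun B => ∑ e ∈ B, φ e = 0) := by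
    intro B hB
    rw [Finset.mem_image] at hB
    obtain ⟨U, hU, rfl⟩ := hB
    rw [Finset.mem_filter]
    refine ⟨by simp, sum_odd φ U fun T hT => ?_⟩
    exact ((tri_iff φ h1).2 T |>.1 (hM (Finset.mem_powerset.1 hU hT))).2
  have heq := Finset.eq_of_subset_of_card_le hsub (by
    rw [hr, Finset.card_image_of_injOn hinj', Finset.card_powerset, hMc, hcard]
    apply Nat.pow_le_pow_right (by norm_num)
    omega)
  have hmem : A ∈ M.powerset.image odd := by
    rw [heq, Finset.mem_filter]
    exact ⟨by simp, hA⟩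
  rw [Finset.mem_image] at hmem
  obtain ⟨U, hU, hUA⟩ := hmem
  exact ⟨U, (Finset.mem_powerset.1 hU).trans hM, hUA⟩

theorem dd15_ends (φ : E → X) (e : E)
    (ht : ((tri φ).filter fun T => e ∈ T).card = 1 ∨ ((tri φ).filter fun T => e ∈ T).card = 2) :
    ∃ a b : Option {T // T ∈ tri φ}, a ≠ b ∧
      ∀ T : {T // T ∈ tri φ}, e ∈ T.1 ↔ (some T = a ∨ some T = b) := by
  rcases ht with h | h
  · rw [Finset.card_eq_one] at h
    obtain ⟨T, hT⟩ := h
    have hT1 : T ∈ (tri φ).filter fun T => e ∈ T := by rw [hT]; simp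
    rw [Finset.mem_filter] at hT1
    refine ⟨some ⟨T, hT1.1⟩, none, by simp, fun T' => ?_⟩
    constructor
    · intro h'
      have : T'.1 ∈ (tri φ).filter fun T => e ∈ T := by
        rw [Finset.mem_filter]; exact ⟨T'.2, h'⟩
      rw [hT, Finset.mem_singleton] at this
      left
      congr 1
      exact Subtype.ext this
    · rintro (h' | h')
      · have := Option.some.inj h'
        rw [this]; exact hT1.2
      · cases h'
  · rw [Finset.card_eq_two] at h
    obtain ⟨T, T', hne, hT⟩ := h
    have hT1 : T ∈ (tri φ).filter fun T => e ∈ T := by rw [hT]; simp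
    have hT2 : T' ∈ (tri φ).filter fun T => e ∈ T := by rw [hT]; simp
    rw [Finset.mem_filter] at hT1 hT2
    refine ⟨some ⟨T, hT1.1⟩, some ⟨T', hT2.1⟩, by simpa using hne, fun T'' => ?_⟩
    constructor
    · intro h'
      have : T''.1 ∈ (tri φ).filter fun T => e ∈ T := by
        rw [Finset.mem_filter]; exact ⟨T''.2, h'⟩
      rw [hT, Finset.mem_insert, Finset.mem_singleton] at this
      rcases this with h | h
      · left; congr 1; exact Subtype.ext h
      · right; congr 1; exact Subtype.ext h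
    · rintro (h' | h')
      · have := Option.some.inj h'
        rw [this]; exact hT1.2
      · have := Option.some.inj h'
        rw [this]; exact hT2.2

theorem dd15_mem_cut {V : Type} (d : E → Sym2 V) (S : Finset V) (e : E) (a b : V)
    (hd : d e = s(a, b)) : e ∈ cut d S ↔ ((a ∈ S ∧ b ∉ S) ∨ (b ∈ S ∧ a ∉ S)) := by
  unfold cut
  rw [Finset.mem_filter, hd]
  simp only [Sym2.mem_iff, Finset.mem_univ, true_and]
  constructor
  · rintro ⟨⟨u, rfl | rfl, hu⟩, w, rfl | rfl, hw⟩
    · exact absurd hu hw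
    · exact Or.inl ⟨hu, hw⟩
    · exact Or.inr ⟨hu, hw⟩
    · exact absurd hu hw
  · rintro (⟨h, h'⟩ | ⟨h, h'⟩)
    · exact ⟨⟨a, Or.inl rfl, h⟩, b, Or.inr rfl, h'⟩
    · exact ⟨⟨b, Or.inr rfl, h⟩, a, Or.inl rfl, h'⟩

theorem dd15_cut_compl {V : Type} [Fintype V] (d : E → Sym2 V) (S : Finset V) :
    cut d Sᶜ = cut d S := by
  ext e
  obtain ⟨a, b, hab⟩ : ∃ a b, d e = s(a, b) := by
    induction h : d e using Sym2.ind with
    | _ a b => exact ⟨a, b, rfl⟩
  rw [dd15_mem_cut d _ e a b hab, dd15_mem_cut d _ e a b hab]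
  simp only [Finset.mem_compl, not_not]
  tauto

/-- [DD15] -/
theorem core (φ : E → X) (v : ℕ)
    (h1 : ∀ A : Finset E, rk φ A + 1 ≤ A.card → A.card + 3 ≤ 3 * rk φ A)
    (h4 : ∀ A : Finset E, 3 ≤ rk φ A → A.card + 3 = 3 * rk φ A →
      A = Finset.univ ∧ (tri φ).card = v)
    (h5 : rk φ Finset.univ + v = Fintype.card E + 1)
    (h6 : Fintype.card E + (Finset.univ.filter fun A : Finset E => A.card = 5 ∧ rk φ A = 3).card
      = 3 * (tri φ).card)
    (h7 : (tri φ).card ≤ v) (h8 : v ≤ (tri φ).card + 1) (h9 : 3 ≤ v) :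
    ∃ (U : Type) (_ : Fintype U) (d : E → Sym2 U),
      (∀ A : Finset E, ∑ e ∈ A, φ e = 0 ↔ ∃ S : Finset U, A = cut d S) ∧
      ∃ u₀ : U, ∀ u, u ≠ u₀ → (cut d {u}).card = 3 := by
  have ht := one_or_two φ h1 h6
  have hT3 := (tri_iff φ h1).2
  choose a b hab hd using fun e => dd15_ends φ e (ht e)
  let d : E → Sym2 (Option {T // T ∈ tri φ}) := fun e => s(a e, b e)
  have key : ∀ S : Finset (Option {T // T ∈ tri φ}), none ∉ S →
      cut d S = odd ((tri φ).filter fun T => ∃ h : T ∈ tri φ, some ⟨T, h⟩ ∈ S) := by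
    intro S hS
    ext e
    rw [dd15_mem_cut d S e (a e) (b e) rfl]
    unfold odd
    rw [Finset.mem_filter]
    have hc : ((((tri φ).filter fun T => ∃ h : T ∈ tri φ, some ⟨T, h⟩ ∈ S)).filter
        fun T => e ∈ T).card = (S.filter fun u => u = a e ∨ u = b e).card := by
      apply Finset.card_bij (fun T hT => some ⟨T, (Finset.mem_filter.1 (Finset.mem_filter.1 hT).1).1⟩)
      · intro T hT
        rw [Finset.mem_filter, Finset.mem_filter] at hT
        obtain ⟨⟨hT1, hT2, hT3⟩, hT4⟩ := hT
        rw [Finset.mem_filter]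
        exact ⟨hT3, (hd e ⟨T, hT1⟩).1 hT4⟩
      · intro T hT T' hT' h
        have := Option.some.inj h
        exact congrArg Subtype.val this
      · intro u hu
        rw [Finset.mem_filter] at hu
        cases u with
        | none => exact absurd hu.1 hS
        | some T =>
          refine ⟨T.1, ?_, rfl⟩
          rw [Finset.mem_filter, Finset.mem_filter]
          exact ⟨⟨T.2, T.2, hu.1⟩, (hd e T).2 hu.2⟩
    rw [hc]
    have hf : (S.filter fun u => u = a e ∨ u = b e)
        = (if a e ∈ S then {a e} else ∅) ∪ (if b e ∈ S then {b e} else ∅) := by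
      ext u
      rw [Finset.mem_filter, Finset.mem_union]
      constructor
      · rintro ⟨h, rfl | rfl⟩
        · left; rw [if_pos h]; simp
        · right; rw [if_pos h]; simp
      · rintro (h | h)
        · split_ifs at h with h'
          · rw [Finset.mem_singleton] at h; rw [h]; exact ⟨h', Or.inl rfl⟩
          · simp at h
        · split_ifs at h with h'
          · rw [Finset.mem_singleton] at h; rw [h]; exact ⟨h', Or.inr rfl⟩
          · simp at h
    rw [hf]
    have hne := hab e
    by_cases ha : a e ∈ S <;> by_cases hb : b e ∈ S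
    · rw [if_pos ha, if_pos hb]
      rw [Finset.card_union_of_disjoint (by simpa using hne)]
      simp [ha, hb]
    · simp [ha, hb]
    · simp [ha, hb]
    · simp [ha, hb]
  refine ⟨Option {T // T ∈ tri φ}, inferInstance, d, fun A => ⟨fun hA => ?_, ?_⟩, none,
    fun u hu => ?_⟩
  · obtain ⟨U, hU, hUA⟩ := dd15_surj φ v h1 ht h4 h5 h7 h8 h9 A hA
    refine ⟨Finset.univ.filter fun u => ∃ T : {T // T ∈ tri φ}, u = some T ∧ T.1 ∈ U, ?_⟩
    rw [key _ (by simp), ← hUA]
    congr 1
    ext T
    rw [Finset.mem_filter]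
    constructor
    · intro hT
      refine ⟨hU hT, hU hT, ?_⟩
      rw [Finset.mem_filter]
      exact ⟨Finset.mem_univ _, ⟨T, hU hT⟩, rfl, hT⟩
    · rintro ⟨-, h, hT⟩
      rw [Finset.mem_filter] at hT
      obtain ⟨-, T', hT', hTU⟩ := hT
      have := Option.some.inj hT'
      rw [← this] at hTU
      exact hTU
  · have aux : ∀ S : Finset (Option {T // T ∈ tri φ}), none ∉ S → ∑ e ∈ cut d S, φ e = 0 := by
      intro S hS
      rw [key S hS]
      apply sum_odd
      intro T hT
      rw [Finset.mem_filter] at hT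
      exact ((hT3 T).1 hT.1).2
    rintro ⟨S, rfl⟩
    by_cases hS : none ∈ S
    · rw [← dd15_cut_compl]
      exact aux _ (by simpa using hS)
    · exact aux _ hS
  · cases u with
    | none => exact absurd rfl hu
    | some T =>
      rw [key _ (by simp)]
      have : ((tri φ).filter fun T' => ∃ h : T' ∈ tri φ, some ⟨T', h⟩
          ∈ ({some T} : Finset (Option {T // T ∈ tri φ}))) = {T.1} := by
        ext T'
        rw [Finset.mem_filter, Finset.mem_singleton]
        constructor
        · rintro ⟨-, h, h'⟩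
          rw [Finset.mem_singleton] at h'
          exact congrArg Subtype.val (Option.some.inj h')
        · rintro rfl
          exact ⟨T.2, T.2, by simp⟩
      rw [this]
      have hodd : odd {T.1} = T.1 := by
        ext e
        unfold odd
        rw [Finset.mem_filter, Finset.filter_singleton]
        by_cases he : e ∈ T.1
        · simp [he]
        · simp [he]
      rw [hodd]
      exact ((hT3 T.1).1 T.2).1

end Pool.Agent.LibDD61
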