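import Pool.Agent.LibDD61.Defs

set_option autoImplicit false

namespace Pool.Agent.LibDD61

open scoped Classical

-- DD2: cites no other rows
/-- For a loopless edge, pairing with the incidence vector. -/
theorem dd2_sum_inc {V E : Type} [Fintype V] (g : E → Sym2 V) (hg : ∀ e, ¬ (g e).IsDiag)
    (c : V → ZMod 2) (e : E) (u v : V) (h : g e = s(u, v)) :
    ∑ w, inc g e w * c w = c u + c v := by
  have huv : u ≠ v := by
    intro huv
    apply hg e
    rw [h, huv]
    simp
  have h1 : ∀ w, inc g e w * c w = (if w = u then c w else 0) + (if w = v then c w else 0) := by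
    intro w
    unfold inc
    rw [h]
    by_cases hu : w = u
    · subst hu
      simp [huv]
    · by_cases hv : w = v
      · subst hv
        simp [hu]
      · simp [hu, hv]
  rw [Finset.sum_congr rfl (fun w _ => h1 w), Finset.sum_add_distrib]
  simp

/-- Functions constant on the components. -/
theorem dd2_const {V E : Type} (g : E → Sym2 V) (A : Finset E) (c : V → ZMod 2)
    (hc : ∀ e ∈ A, ∀ u v : V, g e = s(u, v) → c u = c v) (u v : V)
    (h : (SimpleGraph.fromEdgeSet (g '' (A : Set E))).Reachable u v) : c u = c v := by
  obtain ⟨p⟩ := h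
  induction p with
  | nil => rfl
  | cons hadj p ih =>
    rw [← ih]
    rw [SimpleGraph.fromEdgeSet_adj] at hadj
    obtain ⟨⟨e, he, he'⟩, _⟩ := hadj
    exact hc e he _ _ he'

/-- [DD2] The rank of the incidence vectors of `A` is the number of vertices minus the number
of components. -/
theorem rk_add_comps {V E : Type} [Fintype V] (g : E → Sym2 V) (hg : ∀ e, ¬ (g e).IsDiag)
    (A : Finset E) : rk (inc g) A + comps g A = Fintype.card V := by
  set G := SimpleGraph.fromEdgeSet (g '' (A : Set E)) with hG
  let M : Matrix A V (ZMod 2) := fun e v => inc g e v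
  have hspan : rk (inc g) A = M.rank := by
    rw [Matrix.rank_eq_finrank_span_row]
    unfold rk
    have hset : (inc g '' (A : Set E)) = Set.range M.row := by
      ext x
      constructor
      · rintro ⟨e, he, rfl⟩
        exact ⟨⟨e, he⟩, rfl⟩
      · rintro ⟨e, rfl⟩
        exact ⟨e.1, e.2, rfl⟩
    rw [hset]
  have hrn := LinearMap.finrank_range_add_finrank_ker M.mulVecLin
  have hrank : Module.finrank (ZMod 2) (LinearMap.range M.mulVecLin) = M.rank := rfl
  let L : (G.ConnectedComponent → ZMod 2) →ₗ[ZMod 2] (V → ZMod 2) :=
    LinearMap.funLeft (ZMod 2) (ZMod 2) G.connectedComponentMk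
  have hL : Function.Injective L :=
    LinearMap.funLeft_injective_of_surjective _ _ _ (fun C => by
      induction C using SimpleGraph.ConnectedComponent.ind with
      | _ v => exact ⟨v, rfl⟩)
  have hker : LinearMap.ker M.mulVecLin = LinearMap.range L := by
    ext c
    rw [LinearMap.mem_ker, LinearMap.mem_range]
    constructor
    · intro hc
      have h1 : ∀ e ∈ A, ∀ u v : V, g e = s(u, v) → c u = c v := by
        intro e he u v huv
        have h2 : (M.mulVecLin c) ⟨e, he⟩ = 0 := by rw [hc]; rfl
        have h3 : (M.mulVecLin c) ⟨e, he⟩ = ∑ w, inc g e w * c w := rfl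
        rw [h3, dd2_sum_inc g hg c e u v huv] at h2
        have h4 : c u = - c v := eq_neg_of_add_eq_zero_left h2
        rw [h4, ZMod.neg_eq_self_mod_two]
      have h2 : ∀ u v : V, G.connectedComponentMk u = G.connectedComponentMk v → c u = c v := by
        intro u v huv
        exact dd2_const g A c h1 u v (SimpleGraph.ConnectedComponent.exact huv)
      refine ⟨fun C => c C.out, ?_⟩
      funext v
      exact h2 _ _ (Quot.out_eq (G.connectedComponentMk v))
    · rintro ⟨f, rfl⟩
      funext e
      obtain ⟨e, he⟩ := e
      obtain ⟨u, v, huv⟩ : ∃ u v, g e = s(u, v) := by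
        induction h : g e using Sym2.ind with
        | _ u v => exact ⟨u, v, rfl⟩
      have h3 : (M.mulVecLin (L f)) ⟨e, he⟩ = ∑ w, inc g e w * (L f) w := rfl
      rw [h3, dd2_sum_inc g hg _ e u v huv]
      have h4 : G.connectedComponentMk u = G.connectedComponentMk v := by
        apply SimpleGraph.ConnectedComponent.sound
        apply SimpleGraph.Adj.reachable
        rw [hG, SimpleGraph.fromEdgeSet_adj]
        refine ⟨⟨e, he, huv⟩, ?_⟩
        intro h
        apply hg e
        rw [huv, h]
        simp
      have h5 : L f u = f (G.connectedComponentMk u) := rfl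
      have h6 : L f v = f (G.connectedComponentMk v) := rfl
      rw [h5, h6, h4]
      exact CharTwo.add_self_eq_zero _
  have hfin : Module.finrank (ZMod 2) (LinearMap.ker M.mulVecLin) = comps g A := by
    rw [hker, LinearMap.finrank_range_of_inj hL, Module.finrank_fintype_fun_eq_card]
    unfold comps
    rw [Nat.card_eq_fintype_card]
  rw [hrank, hfin, Module.finrank_fintype_fun_eq_card] at hrn
  rw [hspan]
  exact hrn

end Pool.Agent.LibDD61
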