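import Pool.Agent.LibDD61.CountEq
import Pool.Agent.LibDD61.RkComps

set_option autoImplicit false

namespace Pool.Agent.LibDD61

open scoped Classical

/- cites DD1 (countEq) and DD2 (rk_add_comps) -/
theorem dd3_le {E X : Type} [AddCommGroup X] [Module (ZMod 2) X] (φ : E → X) (A : Finset E) :
    rk φ A ≤ A.card := by
  unfold rk
  rw [← Finset.coe_image]
  exact (finrank_span_finset_le_card (R := ZMod 2) (A.image φ)).trans Finset.card_image_le

theorem dd3_mono {V E : Type} [Fintype V] [Fintype E] (g : E → Sym2 V) (A : Finset E) :
    rk (inc g) A ≤ rk (inc g) Finset.univ := by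
  unfold rk
  refine Submodule.finrank_mono (Submodule.span_mono (Set.image_mono ?_))
  exact Finset.coe_subset.2 (Finset.subset_univ A)

theorem dd3_sub {V E : Type} [Fintype V] [Fintype E] (g : E → Sym2 V) (A : Finset E) :
    rk (inc g) Finset.univ + A.card ≤ rk (inc g) A + Fintype.card E := by
  have h1 : rk (inc g) Finset.univ ≤ rk (inc g) A + rk (inc g) Aᶜ := by
    unfold rk
    have h2 : (inc g '' ((Finset.univ : Finset E) : Set E))
        = inc g '' (A : Set E) ∪ inc g '' ((Aᶜ : Finset E) : Set E) := by
      rw [← Set.image_union, ← Finset.coe_union, Finset.union_compl]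
    rw [h2, Submodule.span_union]
    exact Submodule.finrank_add_le_finrank_add_finrank _ _
  have h3 := dd3_le (inc g) Aᶜ
  have h4 : Aᶜ.card + A.card = Fintype.card E := by
    rw [add_comm]
    exact Finset.card_add_card_compl A
  omega

theorem dd3_pos {W F : Type} [Fintype W] [Fintype F] (h : F → Sym2 W) [Nonempty W]
    (B : Finset F) : 1 ≤ comps h B := by
  unfold comps
  obtain ⟨w⟩ := (inferInstance : Nonempty W)
  have : Nonempty (SimpleGraph.fromEdgeSet (h '' (B : Set F))).ConnectedComponent :=
    ⟨SimpleGraph.connectedComponentMk _ w⟩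
  exact Nat.card_pos

/-- [DD3] The equality of Tutte polynomials in terms of numbers of sets of given rank and size. -/
theorem transfer {V E W F : Type} [Fintype V] [Fintype E] [Fintype W] [Fintype F]
    (g : E → Sym2 V) (h : F → Sym2 W) (hg : ∀ e, ¬ (g e).IsDiag) (hh : ∀ f, ¬ (h f).IsDiag)
    (hc : comps h Finset.univ = 1) (hT : ∀ x y : ℤ, tutte g y x = tutte h x y) :
    Fintype.card E = Fintype.card F ∧
    rk (inc g) Finset.univ + Fintype.card W = Fintype.card F + 1 ∧
    ∀ r s : ℕ, (Finset.univ.filter fun A : Finset E => A.card = s ∧ rk (inc g) A = r).card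
      = (Finset.univ.filter fun C : Finset F => C.card = s ∧ comps h Cᶜ + r = s + 1).card := by
  set R := rk (inc g) Finset.univ with hR
  have hW : Nonempty W := by
    by_contra hne
    rw [not_nonempty_iff] at hne
    have h1 : comps h Finset.univ = 0 := by
      unfold comps
      have : IsEmpty (SimpleGraph.fromEdgeSet
          (h '' ((Finset.univ : Finset F) : Set F))).ConnectedComponent := by
        refine ⟨fun c => ?_⟩
        obtain ⟨w, -⟩ := c.exists_rep
        exact hne.false w
      exact Nat.card_of_isEmpty
    omega
  have hrk : ∀ A, rk (inc g) A + comps g A = Fintype.card V := rk_add_comps g hg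
  have hrkh : ∀ B, rk (inc h) B + comps h B = Fintype.card W := rk_add_comps h hh
  have hsum : ∀ x y : ℤ, ∑ A : Finset E, (x - 1) ^ (A.card - rk (inc g) A)
      * (y - 1) ^ (R - rk (inc g) A)
      = ∑ B : Finset F, (x - 1) ^ (comps h B - 1)
        * (y - 1) ^ (B.card + comps h B - Fintype.card W) := by
    intro x y
    have h1 := hT x y
    unfold tutte at h1
    rw [hc] at h1
    rw [← h1]
    refine Finset.sum_congr rfl fun A _ => ?_
    have h2 := hrk A
    have h3 := hrk Finset.univ
    have h4 := dd3_mono g A
    have h5 := dd3_le (inc g) A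
    have e1 : comps g A - comps g Finset.univ = R - rk (inc g) A := by omega
    have e2 : A.card + comps g A - Fintype.card V = A.card - rk (inc g) A := by omega
    rw [e1, e2, mul_comm]
  have hcount := countEq (fun A : Finset E => A.card - rk (inc g) A)
    (fun A : Finset E => R - rk (inc g) A) (fun B : Finset F => comps h B - 1)
    (fun B : Finset F => B.card + comps h B - Fintype.card W) hsum
  have hEF : Fintype.card E = Fintype.card F := by
    have h1 := hsum 2 2
    simp only [show (2 : ℤ) - 1 = 1 by norm_num, one_pow, mul_one, Finset.sum_const,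
      Finset.card_univ, Fintype.card_finset, nsmul_eq_mul] at h1
    have h2 : 2 ^ Fintype.card E = 2 ^ Fintype.card F := by exact_mod_cast h1
    exact Nat.pow_right_injective le_rfl h2
  have hempty : comps h ∅ = Fintype.card W := by
    have h1 := hrkh ∅
    have h2 := dd3_le (inc h) ∅
    rw [Finset.card_empty] at h2
    omega
  have hWpos : 1 ≤ Fintype.card W := Fintype.card_pos
  have hRW : R + Fintype.card W = Fintype.card F + 1 := by
    have hRE := dd3_le (inc g) Finset.univ
    rw [Finset.card_univ] at hRE
    have h1 : Fintype.card W - 1 ≤ Fintype.card E - R := by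
      have h2 := hcount (comps h ∅ - 1) ((∅ : Finset F).card + comps h ∅ - Fintype.card W)
      have h3 : 0 < (Finset.univ.filter fun t : Finset F => comps h t - 1 = comps h ∅ - 1 ∧
          t.card + comps h t - Fintype.card W
            = (∅ : Finset F).card + comps h ∅ - Fintype.card W).card := by
        rw [Finset.card_pos]
        exact ⟨∅, by simp⟩
      rw [← h2, Finset.card_pos] at h3
      obtain ⟨A, hA⟩ := h3
      have h4 := (Finset.mem_filter.1 hA).2.1
      have h5 := dd3_sub g A
      have h6 := dd3_le (inc g) A
      omega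
    have h2 : Fintype.card E - R ≤ Fintype.card W - 1 := by
      have h2 := hcount ((Finset.univ : Finset E).card - rk (inc g) Finset.univ)
        (R - rk (inc g) Finset.univ)
      have h3 : 0 < (Finset.univ.filter fun A : Finset E =>
          A.card - rk (inc g) A = (Finset.univ : Finset E).card - rk (inc g) Finset.univ ∧
          R - rk (inc g) A = R - rk (inc g) Finset.univ).card := by
        rw [Finset.card_pos]
        exact ⟨Finset.univ, by simp⟩
      rw [h2, Finset.card_pos] at h3
      obtain ⟨B, hB⟩ := h3
      have h4 := (Finset.mem_filter.1 hB).2.1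
      rw [Finset.card_univ] at h4
      have h5 := hrkh B
      omega
    omega
  refine ⟨hEF, hRW, fun r s => ?_⟩
  by_cases hrs : r ≤ s ∧ r ≤ R
  · have h1 := hcount (s - r) (R - r)
    have e1 : (Finset.univ.filter fun A : Finset E => A.card = s ∧ rk (inc g) A = r)
        = Finset.univ.filter fun A : Finset E => A.card - rk (inc g) A = s - r ∧
          R - rk (inc g) A = R - r := by
      refine Finset.filter_congr fun A _ => ?_
      have h5 := dd3_le (inc g) A
      have h6 := dd3_mono g A
      constructor
      · rintro ⟨h2, h3⟩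
        omega
      · rintro ⟨h2, h3⟩
        omega
    rw [e1, h1]
    refine Finset.card_nbij' (fun B => Bᶜ) (fun C => Cᶜ) ?_ ?_ ?_ ?_
    · intro B hB
      have h2 := (Finset.mem_filter.1 (Finset.mem_coe.1 hB)).2
      refine Finset.mem_coe.2 (Finset.mem_filter.2 ⟨Finset.mem_univ _, ?_⟩)
      have h3 := dd3_pos h B
      have h4 := hrkh B
      have h5 := dd3_le (inc h) B
      have h6 := Finset.card_add_card_compl B
      show Bᶜ.card = s ∧ comps h Bᶜᶜ + r = s + 1
      rw [compl_compl]
      omega
    · intro C hC
      have h2 := (Finset.mem_filter.1 (Finset.mem_coe.1 hC)).2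
      refine Finset.mem_coe.2 (Finset.mem_filter.2 ⟨Finset.mem_univ _, ?_⟩)
      have h3 := dd3_pos h Cᶜ
      have h4 := hrkh Cᶜ
      have h5 := dd3_le (inc h) Cᶜ
      have h6 := Finset.card_add_card_compl C
      show comps h Cᶜ - 1 = s - r ∧ Cᶜ.card + comps h Cᶜ - Fintype.card W = R - r
      omega
    · intro B _
      exact compl_compl B
    · intro C _
      exact compl_compl C
  · have e1 : (Finset.univ.filter fun A : Finset E => A.card = s ∧ rk (inc g) A = r) = ∅ := by
      refine Finset.filter_eq_empty_iff.2 fun A _ h2 => ?_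
      have h5 := dd3_le (inc g) A
      have h6 := dd3_mono g A
      omega
    have e2 : (Finset.univ.filter fun C : Finset F =>
        C.card = s ∧ comps h Cᶜ + r = s + 1) = ∅ := by
      refine Finset.filter_eq_empty_iff.2 fun C _ h2 => ?_
      have h3 := dd3_pos h Cᶜ
      have h4 := hrkh Cᶜ
      have h5 := dd3_le (inc h) Cᶜ
      have h6 := Finset.card_add_card_compl C
      omega
    rw [e1, e2]
    rfl

end Pool.Agent.LibDD61
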